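import Pool.Agent.H895.SM.Tower

/-!
# The digits of several numbers with a joint transcendence measure
-/

set_option autoImplicit false

namespace Pool.Agent.H895.SM

open Finset Polynomial
open Pool.Agent.R473.JC (ARel poly_of_rel chg chg_fin chg_mono chg_last ARel.trunc Near AlgRelation complexity
  complexity_mem arel_of_algRelation)
open Pool.Agent.W472.AC (digit)

/-- all changes are among the first `t i` digits -/
theorem last_N {n : ℕ} (hn : 0 < n) (u : Fin n → ℝ) (hu : JointN u) (r : ℕ) : ∃ A : ℝ, 1 ≤ A ∧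
    ∀ b : Fin n → ℕ, (∀ i, 2 ≤ b i) → ∀ L k t : Fin n → ℕ, (∀ i, t i ≤ L i) → ∀ s : Fin n → ℕ → ℤ,
      (∀ i l, 0 ≤ s i l ∧ s i l < b i) → (∀ i l, t i < l → l ≤ L i → s i l = digit (b i) (u i) l) →
      (∀ i, ARel (s i) r (L i) (k i)) → ∀ M : ℝ, (∀ i, L i * Real.log (b i) ≤ M) →
      (∀ i, M ≤ L i * Real.log (b i) + Real.log (b i)) →
      M ≤ A * ∑ i, ((k i : ℝ) + 1 + t i) * Real.log (b i) := by
  choose A' hA' h' using fun i => poly_of_rel (u i) r
  obtain ⟨κ, c, hc, hj⟩ := hu r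
  obtain ⟨a, ha⟩ : ∃ a : ℝ, a = 1 + ∑ i, A' i := ⟨_, rfl⟩
  have hA'0 : ∀ i, 0 ≤ A' i := fun i => by linarith [hA' i]
  have haA : ∀ i, A' i ≤ a := fun i => by
    have := Finset.single_le_sum (fun i _ => hA'0 i) (Finset.mem_univ i)
    rw [ha]; linarith
  have ha1 : 1 ≤ a := by
    rw [ha]
    have := Finset.sum_nonneg (fun i (_ : i ∈ univ) => hA'0 i)
    linarith
  obtain ⟨g, hg⟩ : ∃ g : ℝ, g = a * (1 + κ) := ⟨_, rfl⟩
  have hκ0 : (0 : ℝ) ≤ κ := Nat.cast_nonneg κ
  have hg1 : 1 ≤ g := by rw [hg]; nlinarith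
  have hnR : (1 : ℝ) ≤ n := by exact_mod_cast hn
  obtain ⟨N, hN⟩ : ∃ N : ℝ, N = 8 * (n * g) := ⟨_, rfl⟩
  have hng : 1 ≤ n * g := by nlinarith
  have hN8 : 8 ≤ N := by rw [hN]; linarith
  have hlN : 0 ≤ Real.log N := Real.log_nonneg (by linarith)
  have hconst : 0 ≤ g * (n * Real.log N) := by positivity
  refine ⟨2 * g + 3 + 4 * (g * (n * Real.log N)) + 4 * |Real.log c|, by linarith [abs_nonneg (Real.log c)], ?_⟩
  intro b hb L k t htL s hs hst hrel M hM1 hM2
  choose P hP0 hPd hPc hPv using fun i => h' i (b i) (hb i) (L i) (k i) (t i) (htL i) (s i) (hs i) (hst i) (hrel i)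
  have hlb : ∀ i, 1 / 2 < Real.log (b i) := by
    intro i
    have hbR : (2 : ℝ) ≤ b i := by exact_mod_cast hb i
    have h1 := Real.log_le_log (by norm_num) hbR
    have h2 := Real.log_two_gt_d9
    linarith
  have hlb0 : ∀ i, 0 < Real.log (b i) := fun i => by linarith [hlb i]
  obtain ⟨R, hR⟩ : ∃ x : ℝ, x = ∑ i, ((k i : ℝ) + 1 + t i) * Real.log (b i) := ⟨_, rfl⟩
  rw [← hR]
  have hterm0 : ∀ i, 0 ≤ ((k i : ℝ) + 1 + t i) * Real.log (b i) := fun i =>
    mul_nonneg (by positivity) (hlb0 i).le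
  have hterm : ∀ i, ((k i : ℝ) + 1 + t i) * Real.log (b i) ≤ R := fun i => by
    rw [hR]
    exact Finset.single_le_sum (f := fun i => ((k i : ℝ) + 1 + t i) * Real.log (b i)) (fun i _ => hterm0 i) (Finset.mem_univ i)
  have hlbR : ∀ i, Real.log (b i) ≤ R := fun i => by
    refine le_trans ?_ (hterm i)
    have h1 : 0 ≤ ((k i : ℝ) + t i) * Real.log (b i) := mul_nonneg (by positivity) (hlb0 i).le
    linarith
  have hR1 : 1 / 2 ≤ R := (hlb ⟨0, hn⟩).le.trans (hlbR _)
  have hlL : ∀ i, 0 ≤ Real.log ((L i : ℝ) + 1) := fun i => Real.log_nonneg (by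
    have : (0 : ℝ) ≤ L i := Nat.cast_nonneg _
    linarith)
  obtain ⟨Λ, hΛ⟩ : ∃ x : ℝ, x = R + ∑ i, Real.log ((L i : ℝ) + 1) := ⟨_, rfl⟩
  have hsL : 0 ≤ ∑ i, Real.log ((L i : ℝ) + 1) := Finset.sum_nonneg fun i _ => hlL i
  have hΛ0 : 0 ≤ Λ := by rw [hΛ]; linarith
  have he : ∀ i, A' i * (((k i : ℝ) + 1 + t i) * Real.log (b i) + Real.log ((L i : ℝ) + 1)) ≤ a * Λ := by
    intro i
    refine mul_le_mul (haA i) ?_ (add_nonneg (hterm0 i) (hlL i)) (by linarith)
    have := Finset.single_le_sum (f := fun i => Real.log ((L i : ℝ) + 1)) (fun i _ => hlL i) (Finset.mem_univ i)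
    rw [hΛ]
    linarith [hterm i]
  have haΛ : 0 ≤ a * Λ := mul_nonneg (by linarith) hΛ0
  have hjj := hj P hP0 hPd (Real.exp (a * Λ)) (Real.one_le_exp haΛ)
    (fun i j => (hPc i j).trans (Real.exp_le_exp.2 (he i))) (Real.exp (a * Λ - M + R))
    (fun i => (hPv i).trans (Real.exp_le_exp.2 (by linarith [he i, hM2 i, hlbR i])))
  rw [← Real.exp_nat_mul, ← Real.exp_add] at hjj
  have h6 : Real.log c ≤ κ * (a * Λ) + (a * Λ - M + R) := by
    have h7 := Real.log_le_log hc hjj
    rwa [Real.log_exp] at h7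
  have h8 : M ≤ g * Λ + R + |Real.log c| := by
    rw [hg]
    have := neg_abs_le (Real.log c)
    linarith
  -- the logarithms of the lengths
  have hlog : ∀ y : ℝ, 0 ≤ y → Real.log (y + 1) ≤ (y + 1) / N + Real.log N := by
    intro y hy
    have h3 := Real.log_le_sub_one_of_pos (show 0 < (y + 1) / N by positivity)
    rw [Real.log_div (by positivity) (by positivity)] at h3
    linarith
  have hL1 : ∀ i, (L i : ℝ) + 1 ≤ 2 * (M + R) := by
    intro i
    have h9 : 1 * ((L i : ℝ) + 1) ≤ 2 * Real.log (b i) * (L i + 1) :=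
      mul_le_mul_of_nonneg_right (by linarith [hlb i]) (by positivity)
    linarith [hM1 i, hlbR i]
  have h9 : ∑ i, Real.log ((L i : ℝ) + 1) ≤ n * (2 * (M + R) / N + Real.log N) := by
    refine (Finset.sum_le_sum fun i _ => (hlog (L i) (Nat.cast_nonneg _)).trans
      (add_le_add (div_le_div_of_nonneg_right (hL1 i) (by linarith)) le_rfl)).trans (le_of_eq ?_)
    rw [Finset.sum_const, Finset.card_univ, Fintype.card_fin, nsmul_eq_mul]
  have h10 : g * ∑ i, Real.log ((L i : ℝ) + 1) ≤ (M + R) / 4 + g * (n * Real.log N) := by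
    calc g * ∑ i, Real.log ((L i : ℝ) + 1) ≤ g * (n * (2 * (M + R) / N + Real.log N)) :=
          mul_le_mul_of_nonneg_left h9 (by linarith)
      _ = (M + R) / 4 + g * (n * Real.log N) := by
        have hn0 : (n : ℝ) ≠ 0 := by positivity
        have hg0 : g ≠ 0 := by positivity
        rw [hN]
        field_simp
        ring
  have h11 : g * Λ = g * R + g * ∑ i, Real.log ((L i : ℝ) + 1) := by rw [hΛ]; ring
  have h12 : 4 * (g * (n * Real.log N)) * R ≥ 2 * (g * (n * Real.log N)) := by nlinarith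
  have h13 : 4 * |Real.log c| * R ≥ 2 * |Real.log c| := by nlinarith [abs_nonneg (Real.log c)]
  have h14 : (2 * g + 3 + 4 * (g * (n * Real.log N)) + 4 * |Real.log c|) * R =
      2 * (g * R) + 3 * R + 4 * (g * (n * Real.log N)) * R + 4 * |Real.log c| * R := by ring
  rw [h14]
  have h15 : 0 ≤ g * R := by positivity
  linarith [abs_nonneg (Real.log c)]

/-- **Several numbers, several bases, a bounded number of changes.** -/
theorem errors_N {n : ℕ} (hn : 0 < n) (u : Fin n → ℝ) (hu : JointN u) (r : ℕ) : ∃ A : ℝ, 1 ≤ A ∧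
    ∀ b : Fin n → ℕ, (∀ i, 2 ≤ b i) → ∀ (K : ℕ) (L k : Fin n → ℕ) (s : Fin n → ℕ → ℤ),
      (∀ i l, 0 ≤ s i l ∧ s i l < b i) → ∑ i, (chg (b i) (u i) (s i) (L i)).ncard ≤ K →
      (∀ i, ARel (s i) r (L i) (k i)) → ∀ M : ℝ, (∀ i, M ≤ L i * Real.log (b i)) →
      M ≤ A ^ (K + 1) * ∑ i, ((k i : ℝ) + 1) * Real.log (b i) := by
  classical
  obtain ⟨A, hA, hmain⟩ := last_N hn u hu r
  have hnR : (1 : ℝ) ≤ n := by exact_mod_cast hn
  have hA2 : 1 ≤ A * (2 * n + 1) := by nlinarith
  refine ⟨A * (2 * n + 1), hA2, fun b hb K => ?_⟩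
  have hlb0 : ∀ i, 0 < Real.log (b i) := by
    intro i
    have hbR : (2 : ℝ) ≤ b i := by exact_mod_cast hb i
    exact Real.log_pos (by linarith)
  -- the common part
  have common : ∀ (W : ℝ), 1 ≤ W → ∀ (L k : Fin n → ℕ) (s : Fin n → ℕ → ℤ),
      (∀ i l, 0 ≤ s i l ∧ s i l < b i) → (∀ i, ARel (s i) r (L i) (k i)) → ∀ M : ℝ,
      (∀ i, M ≤ L i * Real.log (b i)) →
      (∀ (L₂ : Fin n → ℕ), ∑ i, (chg (b i) (u i) (s i) (L₂ i)).ncard + 1 ≤ ∑ i, (chg (b i) (u i) (s i) (L i)).ncard →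
        (∀ i, ARel (s i) r (L₂ i) (k i)) → ∀ M₂ : ℝ, (∀ i, M₂ ≤ L₂ i * Real.log (b i)) →
        M₂ ≤ W * ∑ i, ((k i : ℝ) + 1) * Real.log (b i)) →
      M ≤ A * (2 * n + 1) * W * ∑ i, ((k i : ℝ) + 1) * Real.log (b i) := by
    intro W hW L k s hs hrel M hM ih
    obtain ⟨R, hR⟩ : ∃ x : ℝ, x = ∑ i, ((k i : ℝ) + 1) * Real.log (b i) := ⟨_, rfl⟩
    rw [← hR] at ih ⊢
    have hterm0 : ∀ i, 0 ≤ ((k i : ℝ) + 1) * Real.log (b i) := fun i => mul_nonneg (by positivity) (hlb0 i).le
    have hlbR : ∀ i, Real.log (b i) ≤ R := fun i => by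
      have h1 : ((k i : ℝ) + 1) * Real.log (b i) ≤ R := by
        rw [hR]
        exact Finset.single_le_sum (f := fun i => ((k i : ℝ) + 1) * Real.log (b i)) (fun i _ => hterm0 i)
          (Finset.mem_univ i)
      have h2 : 0 ≤ (k i : ℝ) * Real.log (b i) := mul_nonneg (Nat.cast_nonneg _) (hlb0 i).le
      linarith
    have hR0 : 0 < R := (hlb0 ⟨0, hn⟩).trans_le (hlbR _)
    rcases le_or_gt M 0 with hM0 | hM0
    · refine hM0.trans ?_
      positivity
    let L₁ : Fin n → ℕ := fun i => ⌊M / Real.log (b i)⌋₊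
    have a1 : ∀ i, (L₁ i : ℝ) * Real.log (b i) ≤ M := fun i => by
      rw [← le_div_iff₀ (hlb0 i)]
      exact Nat.floor_le (div_nonneg hM0.le (hlb0 i).le)
    have a2 : ∀ i, M < L₁ i * Real.log (b i) + Real.log (b i) := fun i => by
      have := Nat.lt_floor_add_one (M / Real.log (b i))
      rw [div_lt_iff₀ (hlb0 i)] at this
      linarith
    have b1 : ∀ i, L₁ i ≤ L i := fun i => by
      have h1 : (L₁ i : ℝ) * Real.log (b i) ≤ L i * Real.log (b i) := (a1 i).trans (hM i)
      exact_mod_cast le_of_mul_le_mul_right h1 (hlb0 i)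
    choose t htL hst htn using fun i => chg_last (b i) (u i) (s i) (L₁ i)
    have hm := hmain b hb L₁ k t htL s hs hst (fun i => (hrel i).trunc (L₁ i) (b1 i)) M a1 (fun i => (a2 i).le)
    have hsplit : ∑ i, ((k i : ℝ) + 1 + t i) * Real.log (b i) = R + ∑ i, (t i : ℝ) * Real.log (b i) := by
      rw [hR, ← Finset.sum_add_distrib]
      exact Finset.sum_congr rfl fun i _ => by ring
    rw [hsplit] at hm
    haveI : Nonempty (Fin n) := ⟨⟨0, hn⟩⟩
    obtain ⟨i₀, -, hmax⟩ := Finset.exists_max_image univ (fun i => (t i : ℝ) * Real.log (b i)) univ_nonempty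
    have hW0 : 0 < W := by linarith
    have hbound : (t i₀ : ℝ) * Real.log (b i₀) ≤ 2 * (W * R) := by
      rcases Nat.eq_zero_or_pos (t i₀) with h0 | hpos
      · rw [h0, Nat.cast_zero, zero_mul]
        positivity
      · have hcast : ((t i₀ - 1 : ℕ) : ℝ) = (t i₀ : ℝ) - 1 := by
          rw [Nat.cast_sub hpos]; push_cast; ring
        have htM : (t i₀ : ℝ) * Real.log (b i₀) ≤ M :=
          (mul_le_mul_of_nonneg_right (by exact_mod_cast htL i₀) (hlb0 i₀).le).trans (a1 i₀)
        have h3 := ih (Function.update L₁ i₀ (t i₀ - 1)) ?_ (fun i => ?_)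
          ((t i₀ : ℝ) * Real.log (b i₀) - R) (fun i => ?_)
        · have : R ≤ W * R := by nlinarith
          linarith
        · have h4 : ∑ i, (chg (b i) (u i) (s i) (Function.update L₁ i₀ (t i₀ - 1) i)).ncard <
              ∑ i, (chg (b i) (u i) (s i) (L i)).ncard := by
            refine Finset.sum_lt_sum (fun i _ => ?_) ⟨i₀, mem_univ _, ?_⟩
            · by_cases hi : i = i₀
              · subst hi
                rw [Function.update_self]
                exact Set.ncard_le_ncard (chg_mono _ _ _ (by have := htL i; have := b1 i; omega)) (chg_fin _ _ _ _)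
              · rw [Function.update_of_ne hi]
                exact Set.ncard_le_ncard (chg_mono _ _ _ (b1 i)) (chg_fin _ _ _ _)
            · rw [Function.update_self]
              have h5 := htn i₀ hpos
              have h6 := Set.ncard_le_ncard (chg_mono (b i₀) (u i₀) (s i₀) (b1 i₀)) (chg_fin _ _ _ _)
              omega
          omega
        · by_cases hi : i = i₀
          · subst hi
            rw [Function.update_self]
            exact (hrel i).trunc _ (by have := htL i; have := b1 i; omega)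
          · rw [Function.update_of_ne hi]
            exact (hrel i).trunc _ (b1 i)
        · by_cases hi : i = i₀
          · subst hi
            rw [Function.update_self, hcast]
            linarith [hlbR i]
          · rw [Function.update_of_ne hi]
            linarith [a2 i, hlbR i]
    have hsum : ∑ i, (t i : ℝ) * Real.log (b i) ≤ n * (2 * (W * R)) := by
      refine (Finset.sum_le_sum fun i hi => (hmax i hi).trans hbound).trans (le_of_eq ?_)
      rw [Finset.sum_const, Finset.card_univ, Fintype.card_fin, nsmul_eq_mul]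
    have hWR : R ≤ W * R := by nlinarith
    calc M ≤ A * (R + ∑ i, (t i : ℝ) * Real.log (b i)) := hm
      _ ≤ A * (W * R + n * (2 * (W * R))) := mul_le_mul_of_nonneg_left (add_le_add hWR hsum) (by linarith)
      _ = _ := by ring
  induction K with
  | zero =>
    intro L k s hs hK hrel M hM
    have h1 := common 1 le_rfl L k s hs hrel M hM (fun L₂ h2 => by omega)
    rw [zero_add, pow_one]
    linarith
  | succ K ih =>
    intro L k s hs hK hrel M hM
    have h1 := common ((A * (2 * n + 1)) ^ (K + 1)) (one_le_pow₀ hA2) L k s hs hrel M hM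
      (fun L₂ h2 hrel₂ M₂ hM₂ => ih L₂ k s hs (by omega) hrel₂ M₂ hM₂)
    rw [pow_succ' _ (K + 1)]
    linarith

/-- **The joint algebraic complexity of the digits of several numbers.** -/
theorem complexity_N {n : ℕ} (hn : 0 < n) (u : Fin n → ℝ) (hu : JointN u) (r : ℕ) : ∃ A : ℝ, 1 ≤ A ∧
    ∀ b : Fin n → ℕ, (∀ i, 2 ≤ b i) → ∀ (K L : Fin n → ℕ) (M : ℝ), (∀ i, M ≤ L i * Real.log (b i)) →
      M ≤ A ^ (∑ i, K i + 1) * ∑ i, ((complexity (b i) (u i) r (K i) (L i) : ℝ) + 1) * Real.log (b i) := by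
  obtain ⟨A, hA, h⟩ := errors_N hn u hu r
  refine ⟨A, hA, fun b hb K L M hM => ?_⟩
  choose s hs hrel using fun i => complexity_mem (b i) (hb i) (u i) r (K i) (L i)
  exact h b hb (∑ i, K i) L (fun i => complexity (b i) (u i) r (K i) (L i)) s (fun i => (hs i).1)
    (Finset.sum_le_sum fun i _ => (hs i).2) (fun i => arel_of_algRelation _ _ _ _ (hrel i)) M hM

end Pool.Agent.H895.SM
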