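import Pool.Agent.H895.SM.Crit3
import Pool.Agent.H895.SM.Dig

/-!
# Joint transcendence measures for zeta values, Euler's constant and Gompertz numbers
-/

set_option autoImplicit false

namespace Pool.Agent.H895.SM

open Set Pool.Agent.R352.E

/-- values at positive rational points -/
lemma EE_meas_fin (J : ℕ) {k : ℕ} (x : Fin k → ℚ) (hinj : Function.Injective x) (hpos : ∀ i, 0 < x i) :
    ∃ q : ℕ, 1 ≤ q ∧ MeasA (fun o : Option (Fin J × Fin k) => o.elim (Real.exp ((-1 / q : ℚ) : ℝ))
      (fun p => EE (p.1 + 1) (x p.2))) := by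
  set q : ℕ := ∏ i, (x i).den with hqd
  have hq : 1 ≤ q := Nat.one_le_iff_ne_zero.2 (Finset.prod_ne_zero_iff.2 fun i _ => (x i).den_ne_zero)
  have hm : ∀ i, ∃ m : ℕ, 1 ≤ m ∧ (m : ℝ) / q = x i := by
    intro i
    obtain ⟨c, hc⟩ := Finset.dvd_prod_of_mem (fun i => (x i).den) (Finset.mem_univ i)
    have hc' : q = (x i).den * c := hc
    have hnum : 0 < (x i).num := Rat.num_pos.2 (hpos i)
    have hc0 : c ≠ 0 := by
      rintro rfl
      rw [mul_zero] at hc'
      omega
    refine ⟨(x i).num.toNat * c, ?_, ?_⟩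
    · have h1 : 1 ≤ (x i).num.toNat := by omega
      exact Nat.one_le_iff_ne_zero.2 (Nat.mul_ne_zero (by omega) hc0)
    · have h2 : (((x i).num.toNat : ℕ) : ℝ) = ((x i).num : ℝ) := by
        have : (((x i).num.toNat : ℕ) : ℤ) = (x i).num := Int.toNat_of_nonneg hnum.le
        exact_mod_cast this
      have h3 : ((x i : ℚ) : ℝ) = ((x i).num : ℝ) / ((x i).den : ℝ) := by
        exact_mod_cast (Rat.num_div_den (x i)).symm
      rw [hc', h3]
      push_cast
      rw [h2]
      have : ((x i).den : ℝ) ≠ 0 := by exact_mod_cast (x i).den_ne_zero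
      have : (c : ℝ) ≠ 0 := by exact_mod_cast hc0
      field_simp
  choose mm hmm using hm
  have hinj' : Function.Injective mm := by
    intro i j hij
    apply hinj
    have h1 := (hmm i).2
    rw [hij, (hmm j).2] at h1
    exact_mod_cast h1.symm
  have h := EE_meas J k mm hinj' (fun i => (hmm i).1) hq
  refine ⟨q, hq, ?_⟩
  have he : (fun o : Option (Fin J × Fin k) => o.elim (Real.exp ((-1 / q : ℚ) : ℝ))
      (fun p => EE (p.1 + 1) (x p.2))) = fun o : Option (Fin J × Fin k) =>
      o.elim (Real.exp (-1 / q)) (fun p => EE (p.1 + 1) ((mm p.2 : ℝ) / q)) := by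
    funext o
    cases o with
    | none =>
      simp only [Option.elim]
      push_cast
      rfl
    | some p =>
      simp only [Option.elim]
      rw [(hmm p.2).2]
  rw [he]
  exact h

/-- the counting theorem -/
theorem joint_count {J c r n : ℕ} (con : Fin c → ℝ) (y : Fin r → ℝ)
    (hJ : ∀ l : Fin J, ∀ x : ℚ, 0 < x → ∀ T : Set ℝ, (∀ i, con i ∈ clF T) → Real.exp 1 ∈ clF T →
      Real.eulerMascheroniConstant + Real.log x ∈ clF T → dl (l + 1) x ∈ clF T → EE (l + 1) x ∈ clF T)
    (N : Fin n → Fin c ⊕ Fin r ⊕ (Fin J × ℚ)) (hN : Function.Injective N)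
    (hX : ∀ i, ∀ p : Fin J × ℚ, N i = Sum.inr (Sum.inr p) → 0 < p.2 ∧
      Real.eulerMascheroniConstant + Real.log p.2 ∈ clF ({Real.exp 1} ∪ range y)) (hn : c + r < n)
    (v : Fin n → ℝ) (hv : ∀ i, gval J con y (N i) ∈ clF {Real.exp 1, v i}) : JointN v := by
  classical
  let X : Finset ℚ := Finset.univ.biUnion fun i => Sum.elim (fun _ => ∅) (Sum.elim (fun _ => ∅) (fun p => {p.2})) (N i)
  have hXm : ∀ i, ∀ p : Fin J × ℚ, N i = Sum.inr (Sum.inr p) → p.2 ∈ X := by
    intro i p hp
    exact Finset.mem_biUnion.2 ⟨i, Finset.mem_univ _, by rw [hp]; simp⟩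
  have hXp : ∀ x ∈ X, 0 < x ∧ Real.eulerMascheroniConstant + Real.log x ∈ clF ({Real.exp 1} ∪ range y) := by
    intro x hx
    obtain ⟨i, -, hxi⟩ := Finset.mem_biUnion.1 hx
    rcases h : N i with j | j | p
    · rw [h] at hxi; simp at hxi
    · rw [h] at hxi; simp at hxi
    · rw [h] at hxi
      simp at hxi
      subst hxi
      exact hX i p h
  -- enumeration of the points
  let e := Fintype.equivFin X
  let x : Fin (Fintype.card X) → ℚ := fun i => (e.symm i : ℚ)
  have hxinj : Function.Injective x := Subtype.val_injective.comp e.symm.injective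
  have hx : ∀ i, 0 < x i ∧ Real.eulerMascheroniConstant + Real.log (x i) ∈ clF ({Real.exp 1} ∪ range y) :=
    fun i => hXp _ (e.symm i).2
  obtain ⟨q, hq, hmeas⟩ := EE_meas_fin J x hxinj fun i => (hx i).1
  let κ := Fin c ⊕ Fin r ⊕ (Fin J × Fin (Fintype.card X))
  let emb : κ → Fin c ⊕ Fin r ⊕ (Fin J × ℚ) := Sum.map id (Sum.map id (Prod.map id x))
  have hemb : Function.Injective emb := by
    refine Function.Injective.sumMap Function.injective_id (Function.Injective.sumMap Function.injective_id ?_)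
    exact Function.Injective.prodMap Function.injective_id hxinj
  have hlift : ∀ i, ∃ j : κ, emb j = N i := by
    intro i
    rcases h : N i with j | j | p
    · exact ⟨Sum.inl j, rfl⟩
    · exact ⟨Sum.inr (Sum.inl j), rfl⟩
    · refine ⟨Sum.inr (Sum.inr (p.1, e ⟨p.2, hXm i p h⟩)), ?_⟩
      simp [emb, x]
  choose N' hN' using hlift
  have hN'inj : Function.Injective N' := by
    intro i j hij
    apply hN
    rw [← hN', ← hN', hij]
  let S : Finset κ := Finset.univ.image N'
  have hScard : S.card = n := by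
    rw [Finset.card_image_of_injective _ hN'inj, Finset.card_univ, Fintype.card_fin]
  let t : Option {j : κ // j ∉ S} → ℝ := fun o => o.elim (Real.exp 1) (fun j => gval J con y (emb j.1))
  refine criterion_span _ hmeas (by omega) v t ?_ ?_
  · have h1 : Fintype.card {j : κ // j ∉ S} = Fintype.card κ - S.card := by
      rw [Fintype.card_subtype_compl]
      simp
    have h2 : S.card ≤ Fintype.card κ := Finset.card_le_univ S
    rw [Fintype.card_option, Fintype.card_option, h1, hScard, Fintype.card_prod, Fintype.card_fin, Fintype.card_fin]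
    rw [hScard] at h2
    simp only [κ, Fintype.card_sum, Fintype.card_prod, Fintype.card_fin] at h2 ⊢
    omega
  · have he : Real.exp 1 ∈ clF (range v ∪ range t) := subset_clF _ (Or.inr ⟨none, rfl⟩)
    have hg : ∀ j : κ, gval J con y (emb j) ∈ clF (range v ∪ range t) := by
      intro j
      by_cases hj : j ∈ S
      · obtain ⟨i, -, rfl⟩ := Finset.mem_image.1 hj
        rw [hN']
        refine clF_le ?_ (hv i)
        rintro z (rfl | rfl)
        · exact he
        · exact subset_clF _ (Or.inl ⟨i, rfl⟩)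
      · exact subset_clF _ (Or.inr ⟨some ⟨j, hj⟩, rfl⟩)
    intro o
    cases o with
    | none =>
      simp only [Option.elim]
      exact exp_rat_mem he _
    | some p =>
      simp only [Option.elim]
      refine hJ p.1 (x p.2) (hx p.2).1 _ (fun i => hg (Sum.inl i)) he ?_ (hg (Sum.inr (Sum.inr p)))
      refine clF_le ?_ (hx p.2).2
      rintro z (hz | ⟨i, rfl⟩)
      · rw [mem_singleton_iff.1 hz]; exact he
      · exact hg (Sum.inr (Sum.inl i))

/-- algebraic numbers may be omitted -/
lemma JointN.omit {n m : ℕ} {v : Fin n → ℝ} (h : JointN v) (hm : 0 < m) (σ : Fin m → Fin n)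
    (hσ : Function.Injective σ) (ha : ∀ i, i ∉ range σ → IsAlgebraic ℚ (v i)) : JointN (fun i => v (σ i)) := by
  classical
  have hex : ∀ i : Fin n, ∃ Q : Polynomial ℤ, i ∉ range σ → Q ≠ 0 ∧ Polynomial.aeval (v i) Q = 0 := by
    intro i
    by_cases hi : i ∈ range σ
    · exact ⟨0, fun h => absurd hi h⟩
    · obtain ⟨Q, hQ, hQ0⟩ := (IsFractionRing.isAlgebraic_iff ℤ ℚ ℝ).2 (ha i hi)
      exact ⟨Q, fun _ => ⟨hQ, hQ0⟩⟩
  choose Q hQ using hex
  intro D
  obtain ⟨κ, c, hc, hj⟩ := h (D + ∑ i, (Q i).natDegree)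
  -- bound for the coefficients of the `Q i`
  obtain ⟨B, hB1, hB⟩ : ∃ B : ℝ, 1 ≤ B ∧ ∀ i k, |(((Q i).coeff k : ℤ) : ℝ)| ≤ B := by
    have h1 : ∀ i, ∃ B : ℝ, 1 ≤ B ∧ ∀ k, |(((Q i).coeff k : ℤ) : ℝ)| ≤ B := fun i =>
      Pool.Agent.R356.bdd_of_support' (Q i).support (fun k => |(((Q i).coeff k : ℤ) : ℝ)|) (fun k hk => by
        show |(((Q i).coeff k : ℤ) : ℝ)| = 0
        rw [Polynomial.notMem_support_iff.1 hk]; simp)
    choose B hB1 hB using h1
    have hB0 : ∀ i, 0 ≤ B i := fun i => by linarith [hB1 i]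
    refine ⟨1 + ∑ i, B i, ?_, fun i k => (hB i k).trans ?_⟩
    · have := Finset.sum_nonneg fun i (_ : i ∈ Finset.univ) => hB0 i
      linarith
    · have := Finset.single_le_sum (fun i _ => hB0 i) (Finset.mem_univ i)
      linarith
  refine ⟨κ, c / B ^ κ, by positivity, fun P hP hPD H hH hPH ε hε => ?_⟩
  have hε0 : 0 ≤ ε := (abs_nonneg _).trans (hε ⟨0, hm⟩)
  let P' : Fin n → Polynomial ℤ := fun i => if hi : ∃ j, σ j = i then P hi.choose else Q i
  have hP'1 : ∀ j, P' (σ j) = P j := by
    intro j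
    have hi : ∃ j', σ j' = σ j := ⟨j, rfl⟩
    have h1 : hi.choose = j := hσ hi.choose_spec
    show (if hi : ∃ j', σ j' = σ j then P hi.choose else Q (σ j)) = P j
    rw [dif_pos hi, h1]
  have hP'2 : ∀ i, i ∉ range σ → P' i = Q i := by
    intro i hi
    show (if hi : ∃ j', σ j' = i then P hi.choose else Q i) = Q i
    rw [dif_neg]
    rintro ⟨j, hj⟩
    exact hi ⟨j, hj⟩
  have hBH : H ≤ B * H := by nlinarith
  have hBH' : B ≤ B * H := by nlinarith
  have h1 := hj P' (fun i => by
      by_cases hi : i ∈ range σ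
      · obtain ⟨j, rfl⟩ := hi
        rw [hP'1]; exact hP j
      · rw [hP'2 i hi]; exact (hQ i hi).1) (fun i => by
      by_cases hi : i ∈ range σ
      · obtain ⟨j, rfl⟩ := hi
        rw [hP'1]; exact (hPD j).trans (Nat.le_add_right _ _)
      · rw [hP'2 i hi]
        have := Finset.single_le_sum (f := fun i => (Q i).natDegree) (fun _ _ => Nat.zero_le _) (Finset.mem_univ i)
        omega) (B * H) (by nlinarith) (fun i k => by
      by_cases hi : i ∈ range σ
      · obtain ⟨j, rfl⟩ := hi
        rw [hP'1]; exact (hPH j k).trans hBH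
      · rw [hP'2 i hi]; exact (hB i k).trans hBH') ε (fun i => by
      by_cases hi : i ∈ range σ
      · obtain ⟨j, rfl⟩ := hi
        rw [hP'1]; exact hε j
      · rw [hP'2 i hi, (hQ i hi).2, abs_zero]; exact hε0)
  rw [mul_pow] at h1
  rw [div_le_iff₀ (by positivity)]
  linarith

end Pool.Agent.H895.SM
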