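import Pool.Agent.H895.SM.Count
import Pool.Agent.R352.Q.Three

/-!
# Joint transcendence measures for zeta values and the tails of their integrals
-/

set_option autoImplicit false

namespace Pool.Agent.H895.SM

open Set Pool.Agent.R352.E Pool.Agent.R352.Q

theorem joint_countR {r n : ℕ} (y : Fin r → ℝ) (N : Fin n → Fin r ⊕ (ℕ × ℚ)) (hN : Function.Injective N)
    (hX : ∀ i, ∀ p : ℕ × ℚ, N i = Sum.inr p → 2 ≤ p.1 ∧ 0 < p.2 ∧ zt p.1 ∈ clF ({Real.exp 1} ∪ range y)) (hn : r < n)
    (v : Fin n → ℝ) (hv : ∀ i, Sum.elim y (fun p : ℕ × ℚ => Rk p.1 p.2) (N i) ∈ clF {Real.exp 1, v i}) : JointN v := by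
  classical
  let X : Finset ℚ := Finset.univ.biUnion fun i => Sum.elim (fun _ => ∅) (fun p => {p.2}) (N i)
  have hXm : ∀ i, ∀ p : ℕ × ℚ, N i = Sum.inr p → p.2 ∈ X := by
    intro i p hp
    exact Finset.mem_biUnion.2 ⟨i, Finset.mem_univ _, by rw [hp]; simp⟩
  have hXp : ∀ x ∈ X, 0 < x := by
    intro x hx
    obtain ⟨i, -, hxi⟩ := Finset.mem_biUnion.1 hx
    rcases h : N i with j | p
    · rw [h] at hxi; simp at hxi
    · rw [h] at hxi
      simp at hxi
      subst hxi
      exact (hX i p h).2.1
  let J : ℕ := Finset.univ.sup fun i => Sum.elim (fun _ => 0) (fun p : ℕ × ℚ => p.1) (N i)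
  have hJ : ∀ i, ∀ p : ℕ × ℚ, N i = Sum.inr p → p.1 ≤ J := by
    intro i p hp
    have := Finset.le_sup (f := fun i => Sum.elim (fun _ => 0) (fun p : ℕ × ℚ => p.1) (N i)) (Finset.mem_univ i)
    simp only [hp, Sum.elim_inr] at this
    exact this
  -- enumeration of the points
  let e := Fintype.equivFin X
  let x : Fin (Fintype.card X) → ℚ := fun i => (e.symm i : ℚ)
  have hxinj : Function.Injective x := Subtype.val_injective.comp e.symm.injective
  have hx : ∀ i, 0 < x i := fun i => hXp _ (e.symm i).2
  obtain ⟨q, hq, hmeas⟩ := EE_meas_fin J x hxinj hx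
  let κ := Fin r ⊕ (Fin J × Fin (Fintype.card X))
  let gen : κ → ℝ := Sum.elim y (fun p => W p.1 (x p.2))
  have hlift : ∀ i, ∃ j : κ, (∀ a, N i = Sum.inl a → j = Sum.inl a) ∧
      (∀ p, N i = Sum.inr p → ∃ b : Fin J × Fin (Fintype.card X), j = Sum.inr b ∧ (b.1 : ℕ) + 1 = p.1 ∧ x b.2 = p.2) := by
    intro i
    rcases h : N i with a | p
    · refine ⟨Sum.inl a, fun b hb => by rw [Sum.inl.inj hb], fun p hp => by simp at hp⟩
    · have h1 := hX i p h
      have h2 := hJ i p h
      refine ⟨Sum.inr (⟨p.1 - 1, by omega⟩, e ⟨p.2, hXm i p h⟩), fun a ha => by simp at ha, fun p' hp' => ?_⟩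
      have h3 : p = p' := Sum.inr.inj hp'
      subst h3
      refine ⟨_, rfl, ?_, ?_⟩
      · simp only
        omega
      · simp [x]
  choose N' hN'1 hN'2 using hlift
  have hN'inj : Function.Injective N' := by
    intro i j hij
    apply hN
    rcases h : N i with a | p <;> rcases h' : N j with a' | p'
    · have h1 := hN'1 i a h
      have h2 := hN'1 j a' h'
      rw [hij, h2] at h1
      rw [Sum.inl.inj h1]
    · have h1 := hN'1 i a h
      obtain ⟨b, h2, -⟩ := hN'2 j p' h'
      rw [hij, h2] at h1
      simp at h1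
    · obtain ⟨b, h2, -⟩ := hN'2 i p h
      have h1 := hN'1 j a' h'
      rw [← hij, h2] at h1
      simp at h1
    · obtain ⟨b, h1, h2, h3⟩ := hN'2 i p h
      obtain ⟨b', h1', h2', h3'⟩ := hN'2 j p' h'
      rw [hij, h1'] at h1
      have h4 : b' = b := Sum.inr.inj h1
      subst h4
      congr 1
      exact Prod.ext (by omega) (by rw [← h3, ← h3'])
  let S : Finset κ := Finset.univ.image N'
  have hScard : S.card = n := by
    rw [Finset.card_image_of_injective _ hN'inj, Finset.card_univ, Fintype.card_fin]
  let t : Option {j : κ // j ∉ S} → ℝ := fun o => o.elim (Real.exp 1) (fun j => gen j.1)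
  refine criterion_span _ hmeas (by omega) v t ?_ ?_
  · have h1 : Fintype.card {j : κ // j ∉ S} = Fintype.card κ - S.card := by
      rw [Fintype.card_subtype_compl]
      simp
    have h2 : S.card ≤ Fintype.card κ := Finset.card_le_univ S
    rw [Fintype.card_option, Fintype.card_option, h1, hScard, Fintype.card_prod, Fintype.card_fin, Fintype.card_fin]
    rw [hScard] at h2
    simp only [κ, Fintype.card_sum, Fintype.card_prod, Fintype.card_fin] at h2 ⊢
    omega
  · have he : Real.exp 1 ∈ clF (range v ∪ range t) := subset_clF _ (Or.inr ⟨none, rfl⟩)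
    have hvi : ∀ i, Sum.elim y (fun p : ℕ × ℚ => Rk p.1 p.2) (N i) ∈ clF (range v ∪ range t) := by
      intro i
      refine clF_le ?_ (hv i)
      rintro z (rfl | rfl)
      · exact he
      · exact subset_clF _ (Or.inl ⟨i, rfl⟩)
    have hy : ∀ a : Fin r, y a ∈ clF (range v ∪ range t) := by
      intro a
      by_cases hj : (Sum.inl a : κ) ∈ S
      · obtain ⟨i, -, hi⟩ := Finset.mem_image.1 hj
        have h1 := hvi i
        rcases h : N i with a' | p
        · have h2 := hN'1 i a' h
          rw [hi] at h2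
          rw [h] at h1
          rw [Sum.inl.inj h2]
          exact h1
        · obtain ⟨b, h2, -⟩ := hN'2 i p h
          rw [hi] at h2
          simp at h2
      · exact subset_clF _ (Or.inr ⟨some ⟨Sum.inl a, hj⟩, rfl⟩)
    have hW : ∀ b : Fin J × Fin (Fintype.card X), W b.1 (x b.2) ∈ clF (range v ∪ range t) := by
      intro b
      by_cases hj : (Sum.inr b : κ) ∈ S
      · obtain ⟨i, -, hi⟩ := Finset.mem_image.1 hj
        have h1 := hvi i
        rcases h : N i with a' | p
        · have h2 := hN'1 i a' h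
          rw [hi] at h2
          simp at h2
        · obtain ⟨b', h2, h3, h4⟩ := hN'2 i p h
          rw [hi] at h2
          have h5 : b = b' := Sum.inr.inj h2
          subst h5
          rw [h, Sum.elim_inr] at h1
          have h6 := hX i p h
          rw [W, if_neg (by omega), h3, h4]
          refine Zk_mem ?_ h1
          refine clF_le ?_ h6.2.2
          rintro z (hz | ⟨a, rfl⟩)
          · rw [mem_singleton_iff.1 hz]; exact he
          · exact hy a
      · exact subset_clF _ (Or.inr ⟨some ⟨Sum.inr b, hj⟩, rfl⟩)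
    intro o
    cases o with
    | none =>
      simp only [Option.elim]
      exact exp_rat_mem he _
    | some p =>
      simp only [Option.elim]
      have hJp := p.1.2
      refine mem_of_Zk (hx p.2) he ?_ (J := J) (by omega) (fun k hk hk' => ?_) (p.1 + 1) (by omega)
      · have h1 := hW (⟨0, by omega⟩, p.2)
        simpa [W] using h1
      · have h1 := hW (⟨k - 1, by omega⟩, p.2)
        simp only [W] at h1
        rw [if_neg (by omega), Nat.sub_add_cancel (by omega)] at h1
        exact h1

end Pool.Agent.H895.SM
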