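import Pool.Agent.H895.SM.Tower

/-!
# The criterion: numbers over which numbers with a measure of algebraic independence are dependent
-/

set_option autoImplicit false

namespace Pool.Agent.H895.SM

open Polynomial Finset
open Pool.Agent.R356 Pool.Agent.TH456.TM Pool.Agent.R473.JC

lemma NR_zero {R : Type*} [CommRing R] (φ : R →+* ℂ) (Q : ℤ[X]) (hQ : Q ≠ 0) (G : R[X]) (β : ℂ)
    (hβ : aeval β Q = 0) (hG : (G.map φ).eval β = 0) : φ (NR Q G) = 0 := by
  have hd : 0 < Q.natDegree := by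
    rcases Nat.eq_zero_or_pos Q.natDegree with h | h
    · exfalso
      have h1 : Q = C (Q.coeff 0) := eq_C_of_natDegree_eq_zero h
      rw [h1, aeval_C, eq_intCast, Int.cast_eq_zero] at hβ
      exact hQ (by rw [h1, hβ, C_0])
    · exact h
  obtain ⟨A, hA, hA'⟩ := bdd_of_support' G.support (fun i => ‖φ (G.coeff i)‖) (fun i hi => by
    show ‖φ (G.coeff i)‖ = 0
    rw [notMem_support_iff.1 hi, map_zero, norm_zero])
  obtain ⟨H, hH, hH'⟩ := bdd_of_support' Q.support (fun i => |((Q.coeff i : ℤ) : ℝ)|) (fun i hi => by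
    show |((Q.coeff i : ℤ) : ℝ)| = 0
    rw [notMem_support_iff.1 hi]; simp)
  have h1 := NR_value φ β Q G A H (max 1 ‖β‖) 0 hA hH (le_max_left _ _) (le_max_right _ _) hd hA' hH'
    (by rw [hβ, norm_zero]) (by rw [hG, norm_zero])
  rw [mul_zero, mul_zero, zero_mul] at h1
  exact norm_le_zero_iff.1 h1

lemma Dat.elim_zero (us : List ℂ) : ∀ (D : Dat) (ψ : D.R →+* ℂ) (P : ℕ → ℤ[X]), (∀ i < us.length, P i ≠ 0) →
    ∀ (N : (D.ext us).R) (α : ℕ → ℂ), (∀ i < us.length, aeval (α i) (P i) = 0) → D.hom us ψ α N = 0 →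
    ψ (D.elim us P N) = 0 := by
  induction us with
  | nil => intro D ψ P _ N α _ h; exact h
  | cons u us ih =>
    intro D ψ P hP N α hα h
    refine NR_zero ψ (P 0) (hP 0 (by simp)) _ (α 0) (hα 0 (by simp)) ?_
    rw [eval_map]
    exact ih (D.poly u) (eval₂RingHom ψ (α 0)) (fun i => P (i + 1)) (fun i hi => hP (i + 1) (by simpa using hi)) N
      (fun i => α (i + 1)) (fun i hi => hα (i + 1) (by simpa using hi)) h

/-- polynomials in the variables as elements of the extension -/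
noncomputable def Dat.th (D : Dat) (us : List ℂ) (n : ℕ) : MvPolynomial (Fin n) ℤ →+* (D.ext us).R :=
  MvPolynomial.eval₂Hom (Int.castRingHom _) (fun k => D.var us k)

lemma Dat.hom_th (D : Dat) (us : List ℂ) (n : ℕ) (hlen : us.length = n) (ψ : D.R →+* ℂ) (α : ℕ → ℂ)
    (g : MvPolynomial (Fin n) ℤ) : D.hom us ψ α (D.th us n g) = MvPolynomial.aeval (fun k : Fin n => α k) g := by
  have h1 : (D.hom us ψ α).comp (D.th us n) = (MvPolynomial.aeval (fun k : Fin n => α k) :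
      MvPolynomial (Fin n) ℤ →ₐ[ℤ] ℂ).toRingHom := by
    refine MvPolynomial.ringHom_ext (fun r => ?_) fun k => ?_
    · simp
    · simp only [RingHom.coe_comp, Function.comp_apply, Dat.th, MvPolynomial.coe_eval₂Hom, MvPolynomial.eval₂_X,
        AlgHom.toRingHom_eq_coe, RingHom.coe_coe, MvPolynomial.aeval_X]
      exact Dat.hom_var us D ψ α k (by rw [hlen]; exact k.2)
  exact congrArg (fun g' : MvPolynomial (Fin n) ℤ →+* ℂ => g' g) h1

/-- the integers -/
noncomputable def datZ : Dat where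
  R := ℤ
  f := fun z => |(z : ℝ)|
  F := fun _ => ⊤
  φ := Int.castRingHom ℂ

lemma int_val (T : ℝ) (hT : 1 ≤ T) (a : ℤ) (n : ℕ) : ‖(Int.castRingHom ℂ) a‖ ≤ |(a : ℝ)| * T ^ n := by
  rw [eq_intCast, Complex.norm_intCast]
  exact le_mul_of_one_le_right (abs_nonneg _) (one_le_pow₀ hT)

lemma szZ (T : ℝ) (hT : 1 ≤ T) : Sz datZ.f datZ.F datZ.φ T where
  len := isLen_int
  filt := { one := trivial, mul := fun _ _ _ _ _ _ => trivial, mono := fun _ _ _ => le_rfl, ex := fun _ => ⟨0, trivial⟩ }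
  one_le := hT
  val n a _ := int_val T hT a n

/-- **The auxiliary polynomial.** For `g` with `g(u) ≠ 0` there is an integer polynomial `q` of bounded
degree whose coefficients are bounded, which is small at `g(u)`, with `q(0) ≠ 0` and
`q(g(α)) = 0` at all tuples of roots with `g(α) ≠ 0`. -/
lemma aux_poly {n : ℕ} (u : Fin n → ℝ) (g : MvPolynomial (Fin n) ℤ) (hg : MvPolynomial.aeval u g ≠ (0 : ℝ)) (m : ℕ) :
    ∃ (E : ℕ) (B : ℝ) (a : ℕ) (K : ℝ) (k : ℕ), 1 ≤ B ∧ 1 ≤ K ∧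
      ∀ P : ℕ → ℤ[X], (∀ i < n, 0 < (P i).natDegree ∧ (P i).natDegree ≤ m) → ∀ H : ℝ, 1 ≤ H →
      (∀ i < n, ∀ k, |(((P i).coeff k : ℤ) : ℝ)| ≤ H) →
      ∀ ε : ℝ, 0 ≤ ε → (∀ i : Fin n, |aeval (u i) (P i)| ≤ ε) →
      ∃ q : ℤ[X], q.natDegree ≤ E ∧ (∀ j, |((q.coeff j : ℤ) : ℝ)| ≤ B * H ^ a) ∧
        |aeval (MvPolynomial.aeval u g : ℝ) q| ≤ K * H ^ k * ε ∧ q.coeff 0 ≠ 0 ∧
        ∀ α : Fin n → ℂ, (∀ i, aeval (α i) (P i) = 0) → MvPolynomial.aeval α g ≠ 0 →
          aeval (MvPolynomial.aeval α g : ℂ) q = 0 := by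
  classical
  obtain ⟨g₀, hg₀⟩ : ∃ g₀ : ℝ, g₀ = MvPolynomial.aeval u g := ⟨_, rfl⟩
  rw [← hg₀] at hg ⊢
  obtain ⟨T, hT⟩ : ∃ T : ℝ, T = 1 + (∑ i, |u i| + |g₀|) := ⟨_, rfl⟩
  have hs1 : 0 ≤ ∑ i, |u i| := Finset.sum_nonneg fun _ _ => abs_nonneg _
  have hT1 : 1 ≤ T := by rw [hT]; linarith [abs_nonneg g₀]
  have huT : ∀ i, |u i| ≤ T := fun i => by
    have := Finset.single_le_sum (f := fun i => |u i|) (fun _ _ => abs_nonneg _) (Finset.mem_univ i)
    rw [hT]; linarith [abs_nonneg g₀]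
  have hgT : |g₀| ≤ T := by rw [hT]; linarith
  let D : Dat := datZ.poly (g₀ : ℂ)
  let us : List ℂ := List.ofFn fun i => ((u i : ℝ) : ℂ)
  have hlen : us.length = n := List.length_ofFn
  have hget : ∀ i : Fin n, us.getD i 0 = ((u i : ℝ) : ℂ) := by
    intro i
    rw [List.getD_eq_getElem _ _ (by rw [hlen]; exact i.2)]
    simp [us]
  have hsz : Sz D.f D.F D.φ (T ^ 2) := (szZ T hT1).poly (g₀ : ℂ) (by
    rw [Complex.norm_real, Real.norm_eq_abs]; exact hgT)
  have hus : ∀ v ∈ us, ‖v‖ ≤ T ^ 2 := by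
    intro v hv
    obtain ⟨i, rfl⟩ := List.mem_ofFn.1 hv
    rw [Complex.norm_real, Real.norm_eq_abs]
    exact (huT i).trans (by nlinarith)
  obtain ⟨N₀, hN₀⟩ : ∃ N₀ : (D.ext us).R, N₀ = D.emb us (X : datZ.R[X]) - D.th us n g := ⟨_, rfl⟩
  have hhom : ∀ (ψ : D.R →+* ℂ) (α : ℕ → ℂ), D.hom us ψ α N₀ =
      ψ (X : datZ.R[X]) - MvPolynomial.aeval (fun k : Fin n => α k) g := by
    intro ψ α
    rw [hN₀, map_sub, Dat.hom_emb, Dat.hom_th D us n hlen]
  obtain ⟨T', hszE⟩ := Dat.sz us D (T ^ 2) hsz hus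
  obtain ⟨E, hE⟩ := hszE.filt.ex N₀
  have hgC : MvPolynomial.aeval (fun k : Fin n => ((u k : ℝ) : ℂ)) g = ((g₀ : ℝ) : ℂ) := by
    rw [hg₀]
    have h4 : (MvPolynomial.aeval (fun k : Fin n => ((u k : ℝ) : ℂ)) :
        MvPolynomial (Fin n) ℤ →ₐ[ℤ] ℂ).toRingHom = Complex.ofRealHom.comp
        (MvPolynomial.aeval u : MvPolynomial (Fin n) ℤ →ₐ[ℤ] ℝ).toRingHom := by
      refine MvPolynomial.ringHom_ext (fun r => by simp) fun i => by simp
    exact congrArg (fun g' : MvPolynomial (Fin n) ℤ →+* ℂ => g' g) h4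
  have hφ0 : (D.ext us).φ N₀ = 0 := by
    rw [Dat.phi_eq, hhom]
    have h1 : (fun k : Fin n => us.getD (k : ℕ) 0) = fun k => ((u k : ℝ) : ℂ) := by
      funext k; exact hget k
    rw [h1, hgC]
    have h2 : D.φ (X : datZ.R[X]) = (g₀ : ℂ) := by
      show eval₂ _ _ X = _
      rw [eval₂_X]
    rw [h2, sub_self]
  obtain ⟨E', B', a', K', k', hB', hK', hbd⟩ := Dat.elim_bound us D (T ^ 2) hsz hus m E (max 1 ((D.ext us).f N₀))
    (le_max_left _ _) 0 1 le_rfl 0
  obtain ⟨δ, hδ⟩ : ∃ δ : ℝ, δ = min 1 |g₀| := ⟨_, rfl⟩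
  have hδ0 : 0 < δ := by rw [hδ]; exact lt_min one_pos (abs_pos.2 hg)
  have hδ1 : δ ≤ 1 := by rw [hδ]; exact min_le_left _ _
  have hδE : 0 < δ ^ E' := by positivity
  refine ⟨E', B', a', K' / δ ^ E', k', hB', ?_, fun P hP H hH hPH ε hε0 hε => ?_⟩
  · rw [le_div_iff₀ hδE, one_mul]
    exact (pow_le_one₀ hδ0.le hδ1).trans hK'
  have hH0 : 0 < H := by linarith
  have hPne : ∀ i < us.length, P i ≠ 0 := by
    intro i hi h0
    have := (hP i (by rw [← hlen]; exact hi)).1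
    rw [h0] at this
    simp at this
  obtain ⟨χ, hχ⟩ : ∃ χ : ℤ[X], χ = D.elim us P N₀ := ⟨_, rfl⟩
  obtain ⟨c1, c2, c3⟩ := hbd P (fun i hi => hP i (by rw [← hlen]; exact hi)) H hH
    (fun i hi => hPH i (by rw [← hlen]; exact hi)) ε (fun i hi => by
      have hi' : i < n := by rw [← hlen]; exact hi
      have h1 := hget ⟨i, hi'⟩
      simp only at h1
      rw [h1, ← abs_aeval]
      exact hε ⟨i, hi'⟩) N₀ hE (by rw [pow_zero, mul_one]; exact le_max_right _ _) (by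
      rw [hφ0, norm_zero]; positivity)
  rw [← hχ] at c1 c2 c3
  -- `χ` is not zero
  have hχ0 : χ ≠ 0 := by
    have hinj : Function.Injective (Int.castRingHom ℂ) := Int.cast_injective
    have hroot : ∀ (R : ℤ[X]) (α : ℂ), R ≠ 0 → aeval α R = 0 → α ∈ (R.map (Int.castRingHom ℂ)).roots.toFinset := by
      intro R α hR hα
      rw [Multiset.mem_toFinset, mem_roots ((Polynomial.map_ne_zero_iff hinj).2 hR), IsRoot.def, eval_map]
      rw [aeval_def] at hα
      exact hα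
    let S : Finset (Fin n → ℂ) := Fintype.piFinset fun i : Fin n => ((P i).map (Int.castRingHom ℂ)).roots.toFinset
    obtain ⟨z, hz⟩ := Infinite.exists_notMem_finset (S.image fun α => (MvPolynomial.aeval α g : ℂ))
    have h1 := Dat.elim_ne us D (eval₂RingHom datZ.φ z) P hPne N₀ (fun α hα h0 => by
      rw [hhom] at h0
      have h2 : (eval₂RingHom datZ.φ z) (X : datZ.R[X]) = z := by
        show eval₂ _ _ X = _
        rw [eval₂_X]
      have h3 : z = MvPolynomial.aeval (fun k : Fin n => α k) g := by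
        rw [← sub_eq_zero, ← h0]
        exact congrArg (fun w : ℂ => w - MvPolynomial.aeval (fun k : Fin n => α k) g) h2.symm
      apply hz
      rw [Finset.mem_image]
      refine ⟨fun k : Fin n => α k, ?_, h3.symm⟩
      rw [Fintype.mem_piFinset]
      intro k
      refine hroot _ _ (hPne k (by rw [hlen]; exact k.2)) (hα k (by rw [hlen]; exact k.2)))
    intro h0
    rw [← hχ] at h1
    apply h1
    rw [h0]
    exact map_zero (eval₂RingHom datZ.φ z)
  -- removal of the factor `X ^ r`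
  obtain ⟨q, hq1, hq2⟩ := Polynomial.exists_eq_pow_rootMultiplicity_mul_and_not_dvd χ hχ0 0
  rw [C_0, sub_zero] at hq1 hq2
  obtain ⟨r, hr⟩ : ∃ r, r = rootMultiplicity 0 χ := ⟨_, rfl⟩
  rw [← hr] at hq1
  have hq0 : q ≠ 0 := by
    rintro rfl
    rw [mul_zero] at hq1
    exact hχ0 hq1
  have hdeg : χ.natDegree = r + q.natDegree := by
    rw [hq1, natDegree_mul (pow_ne_zero _ X_ne_zero) hq0, natDegree_X_pow]
  have hcoef : ∀ j, q.coeff j = χ.coeff (j + r) := by
    intro j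
    rw [hq1, mul_comm, coeff_mul_X_pow]
  have hχE : χ.natDegree ≤ E' := c1.1
  refine ⟨q, by omega, fun j => ?_, ?_, ?_, fun α hα hα0 => ?_⟩
  · rw [hcoef]
    exact (le_len isLen_int χ (j + r)).trans c2
  · have h1 : D.φ χ = ((aeval g₀ χ : ℝ) : ℂ) := by
      show eval₂ (Int.castRingHom ℂ) (g₀ : ℂ) χ = _
      have h2 : aeval (g₀ : ℂ) χ = ((aeval g₀ χ : ℝ) : ℂ) := by
        have := Polynomial.aeval_algebraMap_apply ℂ g₀ χ
        simpa using this
      rw [← h2, aeval_def]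
      rfl
    have h3 : D.φ χ = (g₀ : ℂ) ^ r * ((aeval g₀ q : ℝ) : ℂ) := by
      rw [h1, hq1, map_mul, map_pow, aeval_X]
      push_cast
      rfl
    have h4 : ‖D.φ χ‖ = |g₀| ^ r * |aeval g₀ q| := by
      rw [h3, norm_mul, norm_pow, Complex.norm_real, Complex.norm_real, Real.norm_eq_abs, Real.norm_eq_abs]
    rw [h4] at c3
    have h5 : δ ^ E' ≤ |g₀| ^ r := by
      calc δ ^ E' ≤ δ ^ r := pow_le_pow_of_le_one hδ0.le hδ1 (by omega)
        _ ≤ |g₀| ^ r := pow_le_pow_left₀ hδ0.le (by rw [hδ]; exact min_le_right _ _) r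
    have h6 : δ ^ E' * |aeval g₀ q| ≤ K' * H ^ k' * ε :=
      (mul_le_mul_of_nonneg_right h5 (abs_nonneg _)).trans c3
    have h7 : K' / δ ^ E' * H ^ k' * ε = (K' * H ^ k' * ε) / δ ^ E' := by ring
    rw [h7, le_div_iff₀ hδE]
    linarith
  · intro h0
    apply hq2
    exact X_dvd_iff.2 h0
  · have h1 := Dat.elim_zero us D (eval₂RingHom datZ.φ (MvPolynomial.aeval α g : ℂ)) P hPne N₀
      (fun i => if h : i < n then α ⟨i, h⟩ else 0) (fun i hi => by
        have hi' : i < n := by rw [← hlen]; exact hi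
        rw [dif_pos hi']
        exact hα ⟨i, hi'⟩) (by
        rw [hhom]
        have h2 : (eval₂RingHom datZ.φ (MvPolynomial.aeval α g : ℂ)) (X : datZ.R[X]) =
            MvPolynomial.aeval α g := by
          show eval₂ _ _ X = _
          rw [eval₂_X]
        have h3 : (fun k : Fin n => if h : (k : ℕ) < n then α ⟨k, h⟩ else 0) = α := by
          funext k
          rw [dif_pos k.2]
        rw [h3]
        exact (congrArg (fun w : ℂ => w - MvPolynomial.aeval α g) h2).trans (sub_self _))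
    rw [← hχ] at h1
    have h2 : (aeval (MvPolynomial.aeval α g : ℂ) χ : ℂ) = 0 := by
      rw [aeval_def]
      exact h1
    rw [hq1, map_mul, map_pow, aeval_X] at h2
    exact (mul_eq_zero.1 h2).resolve_left (pow_ne_zero _ hα0)

end Pool.Agent.H895.SM
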