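import Pool.Agent.H895.SM.Crit

/-!
# The criterion
-/

set_option autoImplicit false

namespace Pool.Agent.H895.SM

open Polynomial Finset
open Pool.Agent.R356 Pool.Agent.TH456.TM Pool.Agent.R473.JC

lemma Filt.pow {R : Type*} [CommRing R] {F : ℕ → AddSubgroup R} (h : Filt F) {e : ℕ} {a : R} (ha : a ∈ F e) (j : ℕ) :
    a ^ j ∈ F (e * j) := by
  induction j with
  | zero => simpa using h.one
  | succ j ih =>
    rw [pow_succ]
    exact h.mul _ _ _ _ ih ha

lemma len_pow {R : Type*} [CommRing R] {f : R → ℝ} (h : IsLen f) (a : R) (j : ℕ) : f (a ^ j) ≤ f a ^ j := by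
  induction j with
  | zero => simpa using h.one
  | succ j ih =>
    rw [pow_succ, pow_succ]
    exact (h.mul _ _).trans (mul_le_mul_of_nonneg_right ih (h.nonneg _))

/-- **The criterion.** If `x` has a measure of algebraic independence and is algebraically dependent
over the ring generated by `u`, then `u` has a joint transcendence measure. -/
theorem criterion {ι : Type} [Finite ι] (x : ι → ℝ) (hx : MeasA x) {n : ℕ} (hn : 0 < n) (u : Fin n → ℝ)
    (G : MvPolynomial ι (MvPolynomial (Fin n) ℤ))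
    (hG : MvPolynomial.eval₂ (MvPolynomial.aeval u : MvPolynomial (Fin n) ℤ →ₐ[ℤ] ℝ).toRingHom x G = 0)
    (hne : G.map (MvPolynomial.aeval u : MvPolynomial (Fin n) ℤ →ₐ[ℤ] ℝ).toRingHom ≠ 0) : JointN u := by
  classical
  haveI := Fintype.ofFinite ι
  -- a coefficient
  obtain ⟨s₀, hs₀⟩ : ∃ s₀, (MvPolynomial.aeval u (G.coeff s₀) : ℝ) ≠ 0 := by
    by_contra hcon
    push Not at hcon
    apply hne
    ext s
    rw [MvPolynomial.coeff_map, MvPolynomial.coeff_zero]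
    exact hcon s
  -- an index
  obtain ⟨i₀⟩ : Nonempty ι := by
    by_contra hemp
    rw [not_nonempty_iff] at hemp
    apply hne
    rw [MvPolynomial.eq_C_of_isEmpty G, MvPolynomial.eval₂_C] at hG
    rw [MvPolynomial.eq_C_of_isEmpty G, MvPolynomial.map_C, hG, map_zero]
  obtain ⟨g, hg⟩ : ∃ g, g = G.coeff s₀ := ⟨_, rfl⟩
  rw [← hg] at hs₀
  obtain ⟨M, hM⟩ : ∃ M, M = G.totalDegree + 1 := ⟨_, rfl⟩
  have hM0 : G.coeff (Finsupp.single i₀ M) = 0 := by
    apply MvPolynomial.coeff_eq_zero_of_totalDegree_lt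
    rw [hM]
    have : ∑ i ∈ (Finsupp.single i₀ (G.totalDegree + 1)).support, (Finsupp.single i₀ (G.totalDegree + 1)) i =
        G.totalDegree + 1 := by
      rw [Finsupp.support_single_ne_zero _ (by omega), Finset.sum_singleton, Finsupp.single_eq_same]
    rw [this]
    omega
  intro m
  obtain ⟨E₁, B₁, a₁, K₁, k₁, hB₁, hK₁, haux⟩ := aux_poly u g hs₀ m
  obtain ⟨T, hT⟩ : ∃ T : ℝ, T = 1 + (∑ i, |u i| + ∑ i, |x i|) := ⟨_, rfl⟩
  have hs1 : 0 ≤ ∑ i, |u i| := Finset.sum_nonneg fun _ _ => abs_nonneg _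
  have hs2 : 0 ≤ ∑ i, |x i| := Finset.sum_nonneg fun _ _ => abs_nonneg _
  have hT1 : 1 ≤ T := by rw [hT]; linarith
  have hxT : ∀ i, |x i| ≤ T := fun i => by
    have := Finset.single_le_sum (f := fun i => |x i|) (fun _ _ => abs_nonneg _) (Finset.mem_univ i)
    rw [hT]; linarith
  have huT : ∀ i, |u i| ≤ T := fun i => by
    have := Finset.single_le_sum (f := fun i => |u i|) (fun _ _ => abs_nonneg _) (Finset.mem_univ i)
    rw [hT]; linarith
  let D : Dat := { R := MvPolynomial ι ℤ, f := lenM, F := totF ι, φ := evM x }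
  let us : List ℂ := List.ofFn fun i => ((u i : ℝ) : ℂ)
  have hlen : us.length = n := List.length_ofFn
  have hget : ∀ i : Fin n, us.getD i 0 = ((u i : ℝ) : ℂ) := by
    intro i
    rw [List.getD_eq_getElem _ _ (by rw [hlen]; exact i.2)]
    simp [us]
  have hsz : Sz D.f D.F D.φ T := sz_tot x T hT1 hxT
  have hus : ∀ v ∈ us, ‖v‖ ≤ T := by
    intro v hv
    obtain ⟨i, rfl⟩ := List.mem_ofFn.1 hv
    rw [Complex.norm_real, Real.norm_eq_abs]
    exact huT i
  obtain ⟨y, hy⟩ : ∃ y : ι → D.R, y = fun i => (MvPolynomial.X i : MvPolynomial ι ℤ) := ⟨_, rfl⟩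
  -- the element of the extension
  let Θ : MvPolynomial ι (MvPolynomial (Fin n) ℤ) →+* (D.ext us).R := MvPolynomial.eval₂Hom (D.th us n)
    (fun i => D.emb us (y i))
  have hΘ : ∀ (ψ : D.R →+* ℂ) (α : ℕ → ℂ) (G : MvPolynomial ι (MvPolynomial (Fin n) ℤ)), D.hom us ψ α (Θ G) =
      MvPolynomial.eval₂ (MvPolynomial.aeval (fun k : Fin n => α k) : MvPolynomial (Fin n) ℤ →ₐ[ℤ] ℂ).toRingHom
        (fun i => ψ (y i)) G := by
    intro ψ α G
    have h1 : (D.hom us ψ α).comp Θ = MvPolynomial.eval₂Hom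
        (MvPolynomial.aeval (fun k : Fin n => α k) : MvPolynomial (Fin n) ℤ →ₐ[ℤ] ℂ).toRingHom
        (fun i => ψ (y i)) := by
      refine MvPolynomial.ringHom_ext (fun r => ?_) fun i => ?_
      · simp only [Θ, RingHom.coe_comp, Function.comp_apply, MvPolynomial.coe_eval₂Hom, MvPolynomial.eval₂_C]
        exact Dat.hom_th D us n hlen ψ α r
      · simp only [Θ, RingHom.coe_comp, Function.comp_apply, MvPolynomial.coe_eval₂Hom, MvPolynomial.eval₂_X]
        exact Dat.hom_emb us D ψ α (y i)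
    exact congrArg (fun g' : MvPolynomial ι (MvPolynomial (Fin n) ℤ) →+* ℂ => g' G) h1
  obtain ⟨T', hszE⟩ := Dat.sz us D T hsz hus
  obtain ⟨e₀, he₀⟩ := hszE.filt.ex (Θ G)
  obtain ⟨e₁, he₁⟩ := hszE.filt.ex (D.th us n g)
  obtain ⟨e₂, he₂⟩ := hszE.filt.ex (D.emb us (y i₀) ^ M)
  have hDφ : (fun i => D.φ (y i)) = fun i => ((x i : ℝ) : ℂ) := by
    funext i
    rw [hy]
    show evM x (MvPolynomial.X i) = _
    rw [evM_apply, MvPolynomial.aeval_X]
  have hu : (fun k : Fin n => us.getD (k : ℕ) 0) = fun k => ((u k : ℝ) : ℂ) := by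
    funext k; exact hget k
  have hcx : ∀ g : MvPolynomial (Fin n) ℤ, MvPolynomial.aeval (fun k : Fin n => ((u k : ℝ) : ℂ)) g =
      ((MvPolynomial.aeval u g : ℝ) : ℂ) := by
    intro g
    have h4 : (MvPolynomial.aeval (fun k : Fin n => ((u k : ℝ) : ℂ)) :
        MvPolynomial (Fin n) ℤ →ₐ[ℤ] ℂ).toRingHom = Complex.ofRealHom.comp
        (MvPolynomial.aeval u : MvPolynomial (Fin n) ℤ →ₐ[ℤ] ℝ).toRingHom := by
      refine MvPolynomial.ringHom_ext (fun r => by simp) fun i => by simp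
    exact congrArg (fun g' : MvPolynomial (Fin n) ℤ →+* ℂ => g' g) h4
  have hφG : (D.ext us).φ (Θ G) = 0 := by
    rw [Dat.phi_eq, hΘ, hu, hDφ]
    have h3 : MvPolynomial.eval₂Hom
        (MvPolynomial.aeval (fun k : Fin n => ((u k : ℝ) : ℂ)) : MvPolynomial (Fin n) ℤ →ₐ[ℤ] ℂ).toRingHom
        (fun i => ((x i : ℝ) : ℂ)) = Complex.ofRealHom.comp (MvPolynomial.eval₂Hom
        (MvPolynomial.aeval u : MvPolynomial (Fin n) ℤ →ₐ[ℤ] ℝ).toRingHom x) := by
      refine MvPolynomial.ringHom_ext (fun r => ?_) fun i => ?_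
      · simp only [RingHom.coe_comp, Function.comp_apply, MvPolynomial.coe_eval₂Hom, MvPolynomial.eval₂_C]
        exact hcx r
      · simp
    have h4 := congrArg (fun g' : MvPolynomial ι (MvPolynomial (Fin n) ℤ) →+* ℂ => g' G) h3
    refine h4.trans ?_
    show ((MvPolynomial.eval₂ _ x G : ℝ) : ℂ) = 0
    rw [hG, Complex.ofReal_zero]
  -- bounds for the auxiliary term
  have hlenE := hszE.len
  obtain ⟨b₁, hb₁⟩ : ∃ b : ℝ, b = max 1 ((D.ext us).f (D.th us n g)) := ⟨_, rfl⟩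
  have hb₁1 : 1 ≤ b₁ := by rw [hb₁]; exact le_max_left _ _
  have hb₁' : (D.ext us).f (D.th us n g) ≤ b₁ := by rw [hb₁]; exact le_max_right _ _
  obtain ⟨c₀, hc₀⟩ : ∃ b : ℝ, b = (D.ext us).f (Θ G) := ⟨_, rfl⟩
  obtain ⟨c₂, hc₂⟩ : ∃ b : ℝ, b = (D.ext us).f (D.emb us (y i₀) ^ M) := ⟨_, rfl⟩
  have hc₀0 : 0 ≤ c₀ := by rw [hc₀]; exact hlenE.nonneg _
  have hc₂0 : 0 ≤ c₂ := by rw [hc₂]; exact hlenE.nonneg _
  have hB₁0 : 0 ≤ B₁ := by linarith
  obtain ⟨E', B', a', K', k', hB', hK', hbd⟩ := Dat.elim_bound us D T hsz hus m (e₀ + (e₁ * E₁ + e₂))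
    (1 + c₀ + (E₁ + 1) * (B₁ * b₁ ^ E₁) * c₂) (by
      have : 0 ≤ (E₁ + 1) * (B₁ * b₁ ^ E₁) * c₂ := by positivity
      linarith) a₁ (K₁ * T ^ M) (by
      have : 1 ≤ T ^ M := one_le_pow₀ hT1
      nlinarith) k₁
  obtain ⟨κ, c, hc, hmeas⟩ := hx.toG E'
  refine ⟨a' * κ + k', min 1 (c / (B' ^ κ * K')), lt_min one_pos (by positivity), ?_⟩
  intro P hP hPD H hH hPH ε hε
  have hH0 : 0 < H := by linarith
  have hε0 : 0 ≤ ε := (abs_nonneg _).trans (hε ⟨0, hn⟩)
  -- constants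
  have hconst : ∀ (R : ℤ[X]) (t : ℝ), R ≠ 0 → R.natDegree = 0 → (1 : ℝ) ≤ |aeval t R| := by
    intro R t hR hR0
    have h1 : R = C (R.coeff 0) := eq_C_of_natDegree_eq_zero hR0
    have h2 : R.coeff 0 ≠ 0 := fun h => hR (by rw [h1, h, C_0])
    rw [h1, aeval_C, eq_intCast, ← Int.cast_abs]
    exact_mod_cast Int.one_le_abs h2
  by_cases hdeg : ∃ i, (P i).natDegree = 0
  · obtain ⟨i, hi⟩ := hdeg
    refine (min_le_left _ _).trans ?_
    have h1 := (hconst (P i) (u i) (hP i) hi).trans (hε i)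
    have h2 : 1 ≤ H ^ (a' * κ + k') := one_le_pow₀ hH
    nlinarith
  push Not at hdeg
  obtain ⟨P', hP'⟩ : ∃ P' : ℕ → ℤ[X], P' = fun i => if h : i < n then P ⟨i, h⟩ else 1 := ⟨_, rfl⟩
  have hP'i : ∀ i : Fin n, P' i = P i := by
    intro i
    rw [hP']
    simp
  have hP'' : ∀ i < n, ∃ j : Fin n, (j : ℕ) = i ∧ P' i = P j := by
    intro i hi
    exact ⟨⟨i, hi⟩, rfl, hP'i ⟨i, hi⟩⟩
  obtain ⟨q, hqE, hqc, hqv, hq0, hqα⟩ := haux P' (fun i hi => by
      obtain ⟨j, hj, h1⟩ := hP'' i hi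
      rw [h1]
      exact ⟨Nat.pos_of_ne_zero (hdeg j), hPD j⟩) H hH (fun i hi k => by
      obtain ⟨j, hj, h1⟩ := hP'' i hi
      rw [h1]
      exact hPH j k) ε hε0 (fun i => by rw [hP'i]; exact hε i)
  obtain ⟨h, hh⟩ : ∃ h : MvPolynomial (Fin n) ℤ, h = aeval g q := ⟨_, rfl⟩
  have hsum : D.th us n h = ∑ j ∈ range (E₁ + 1), ((q.coeff j : ℤ) : (D.ext us).R) * D.th us n g ^ j := by
    rw [hh, aeval_eq_sum_range' (show q.natDegree < E₁ + 1 by omega), map_sum]
    refine Finset.sum_congr rfl fun j _ => ?_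
    rw [zsmul_eq_mul, map_mul, map_pow, map_intCast]
  have hth_mem : D.th us n h ∈ (D.ext us).F (e₁ * E₁) := by
    rw [hsum]
    refine sum_mem fun j hj => ?_
    have h1 := hszE.filt.pow he₁ j
    have h2 : e₁ * j ≤ e₁ * E₁ := Nat.mul_le_mul_left _ (by have := Finset.mem_range.1 hj; omega)
    have h3 := zsmul_mem (hszE.filt.mono _ _ h2 h1) (q.coeff j)
    rwa [zsmul_eq_mul] at h3
  have hHa : 1 ≤ H ^ a₁ := one_le_pow₀ hH
  have hth_len : (D.ext us).f (D.th us n h) ≤ (E₁ + 1) * (B₁ * b₁ ^ E₁) * H ^ a₁ := by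
    rw [hsum]
    refine (hlenE.sum _ _).trans ?_
    have h1 : ∀ j ∈ range (E₁ + 1), (D.ext us).f (((q.coeff j : ℤ) : (D.ext us).R) * D.th us n g ^ j) ≤
        B₁ * b₁ ^ E₁ * H ^ a₁ := by
      intro j hj
      refine (hlenE.mul _ _).trans ?_
      have h2 := (len_intCast hlenE (q.coeff j)).trans (hqc j)
      have h3 : (D.ext us).f (D.th us n g ^ j) ≤ b₁ ^ E₁ := by
        refine (len_pow hlenE _ j).trans ((pow_le_pow_left₀ (hlenE.nonneg _) hb₁' j).trans ?_)
        exact pow_le_pow_right₀ hb₁1 (by have := Finset.mem_range.1 hj; omega)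
      calc (D.ext us).f ((q.coeff j : ℤ) : (D.ext us).R) * (D.ext us).f (D.th us n g ^ j)
          ≤ (B₁ * H ^ a₁) * b₁ ^ E₁ := mul_le_mul h2 h3 (hlenE.nonneg _) (by positivity)
        _ = _ := by ring
    refine (Finset.sum_le_sum h1).trans (le_of_eq ?_)
    rw [Finset.sum_const, Finset.card_range, nsmul_eq_mul]
    push_cast
    ring
  obtain ⟨N, hN⟩ : ∃ N : (D.ext us).R, N = Θ G + D.th us n h * D.emb us (y i₀) ^ M := ⟨_, rfl⟩
  have hNmem : N ∈ (D.ext us).F (e₀ + (e₁ * E₁ + e₂)) := by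
    rw [hN]
    refine add_mem (hszE.filt.mono _ _ (Nat.le_add_right _ _) he₀) ?_
    exact hszE.filt.mono _ _ (Nat.le_add_left _ _) (hszE.filt.mul _ _ _ _ hth_mem he₂)
  have hNlen : (D.ext us).f N ≤ (1 + c₀ + (E₁ + 1) * (B₁ * b₁ ^ E₁) * c₂) * H ^ a₁ := by
    rw [hN]
    refine (hlenE.add _ _).trans ?_
    have h1 : (D.ext us).f (D.th us n h * D.emb us (y i₀) ^ M) ≤ (E₁ + 1) * (B₁ * b₁ ^ E₁) * H ^ a₁ * c₂ := by
      rw [hc₂]
      exact (hlenE.mul _ _).trans (mul_le_mul_of_nonneg_right hth_len (hlenE.nonneg _))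
    rw [← hc₀]
    nlinarith
  have hφh : (D.ext us).φ (D.th us n h) = ((aeval (MvPolynomial.aeval u g : ℝ) q : ℝ) : ℂ) := by
    rw [Dat.phi_eq, Dat.hom_th D us n hlen, hu, hcx, hh]
    congr 1
    exact (Polynomial.aeval_algHom_apply (MvPolynomial.aeval u : MvPolynomial (Fin n) ℤ →ₐ[ℤ] ℝ) g q).symm
  have hφe : (D.ext us).φ (D.emb us (y i₀)) = ((x i₀ : ℝ) : ℂ) := by
    rw [Dat.phi_eq, Dat.hom_emb]
    exact congrFun hDφ i₀
  have hNval : ‖(D.ext us).φ N‖ ≤ K₁ * T ^ M * H ^ k₁ * ε := by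
    rw [hN, map_add, hφG, zero_add, map_mul, map_pow, hφh, hφe, norm_mul, norm_pow, Complex.norm_real,
      Complex.norm_real, Real.norm_eq_abs, Real.norm_eq_abs]
    calc |aeval (MvPolynomial.aeval u g : ℝ) q| * |x i₀| ^ M ≤ (K₁ * H ^ k₁ * ε) * T ^ M :=
          mul_le_mul hqv (pow_le_pow_left₀ (abs_nonneg _) (hxT i₀) M) (by positivity) (by positivity)
      _ = _ := by ring
  have hb := hbd P' (fun i hi => by
      obtain ⟨j, hj, h1⟩ := hP'' i (by rw [← hlen]; exact hi)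
      rw [h1]
      exact ⟨Nat.pos_of_ne_zero (hdeg j), hPD j⟩) H hH (fun i hi k => by
      obtain ⟨j, hj, h1⟩ := hP'' i (by rw [← hlen]; exact hi)
      rw [h1]
      exact hPH j k) ε (fun i hi => by
      obtain ⟨j, hj, h1⟩ := hP'' i (by rw [← hlen]; exact hi)
      rw [h1, ← hj, hget j, ← abs_aeval]
      exact hε j) N hNmem hNlen hNval
  obtain ⟨c1, c2, c3⟩ := hb
  have hne' : D.elim us P' N ≠ 0 := by
    -- the tuples of roots
    have hinj : Function.Injective (Int.castRingHom ℂ) := Int.cast_injective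
    let S : Finset (Fin n → ℂ) := Fintype.piFinset fun i => ((P i).map (Int.castRingHom ℂ)).roots.toFinset
    have hroot : ∀ (R : ℤ[X]) (α : ℂ), R ≠ 0 → (α ∈ (R.map (Int.castRingHom ℂ)).roots.toFinset ↔ aeval α R = 0) := by
      intro R α hR
      rw [Multiset.mem_toFinset, mem_roots ((Polynomial.map_ne_zero_iff hinj).2 hR), IsRoot.def, eval_map, aeval_def]
      rfl
    let p : (Fin n → ℂ) → MvPolynomial ι ℂ := fun α =>
      G.map (MvPolynomial.aeval α : MvPolynomial (Fin n) ℤ →ₐ[ℤ] ℂ).toRingHom +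
        MvPolynomial.monomial (Finsupp.single i₀ M) (MvPolynomial.aeval α h : ℂ)
    have hp0 : ∀ α ∈ S, p α ≠ 0 := by
      intro α hα h0
      rw [Fintype.mem_piFinset] at hα
      have hα' : ∀ i : Fin n, aeval (α i) (P' i) = 0 := by
        intro i
        rw [hP'i]
        exact (hroot _ _ (hP i)).1 (hα i)
      have hαh : (MvPolynomial.aeval α h : ℂ) = aeval (MvPolynomial.aeval α g : ℂ) q := by
        rw [hh]
        exact (Polynomial.aeval_algHom_apply (MvPolynomial.aeval α : MvPolynomial (Fin n) ℤ →ₐ[ℤ] ℂ) g q).symm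
      by_cases hg0 : (MvPolynomial.aeval α g : ℂ) = 0
      · have h1 := congrArg (MvPolynomial.coeff (Finsupp.single i₀ M)) h0
        rw [MvPolynomial.coeff_add, MvPolynomial.coeff_map, hM0, map_zero, zero_add, MvPolynomial.coeff_monomial,
          if_pos rfl, MvPolynomial.coeff_zero, hαh, hg0, aeval_def, eval₂_at_zero] at h1
        have h2 : ((q.coeff 0 : ℤ) : ℂ) = 0 := by simpa using h1
        exact hq0 (by exact_mod_cast h2)
      · have h0' : G.map (MvPolynomial.aeval α : MvPolynomial (Fin n) ℤ →ₐ[ℤ] ℂ).toRingHom +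
            MvPolynomial.monomial (Finsupp.single i₀ M) (MvPolynomial.aeval α h : ℂ) = 0 := h0
        have h1 := congrArg (MvPolynomial.coeff s₀) h0'
        have h2 : (MvPolynomial.aeval α h : ℂ) = 0 := by
          rw [hαh]
          exact hqα α hα' hg0
        rw [h2, map_zero, add_zero, MvPolynomial.coeff_map, MvPolynomial.coeff_zero, ← hg] at h1
        exact hg0 h1
    have hprod : ∏ α ∈ S, p α ≠ 0 := Finset.prod_ne_zero_iff.2 hp0
    obtain ⟨z, hz⟩ : ∃ z : ι → ℂ, MvPolynomial.eval z (∏ α ∈ S, p α) ≠ 0 := by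
      by_contra hcon
      push Not at hcon
      exact hprod (MvPolynomial.funext fun z => by rw [hcon z, map_zero])
    rw [map_prod] at hz
    intro h0
    obtain ⟨ψ, hψ⟩ : ∃ ψ : D.R →+* ℂ, ∀ i, ψ (y i) = z i := by
      refine ⟨(MvPolynomial.eval₂Hom (Int.castRingHom ℂ) z : MvPolynomial ι ℤ →+* ℂ), fun i => ?_⟩
      rw [hy]
      exact MvPolynomial.eval₂_X _ _ _
    have hψ' : (fun i => ψ (y i)) = z := funext hψ
    have h1 := Dat.elim_ne us D ψ P' (fun i hi => by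
      obtain ⟨j, hj, h1⟩ := hP'' i (by rw [← hlen]; exact hi)
      rw [h1]
      exact hP j) N (fun α hα => by
      rw [hN, map_add, map_mul, map_pow, hΘ, Dat.hom_th D us n hlen, Dat.hom_emb, hψ', hψ]
      have h3 : (fun k : Fin n => α k) ∈ S := by
        rw [Fintype.mem_piFinset]
        intro k
        refine (hroot _ _ (hP k)).2 ?_
        have h4 := hα k (by rw [hlen]; exact k.2)
        rwa [hP'i] at h4
      have h5 := Finset.prod_ne_zero_iff.1 hz _ h3
      have h6 : MvPolynomial.eval z (p fun k : Fin n => α k) = MvPolynomial.eval₂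
          (MvPolynomial.aeval (fun k : Fin n => α k) : MvPolynomial (Fin n) ℤ →ₐ[ℤ] ℂ).toRingHom z G +
          MvPolynomial.aeval (fun k : Fin n => α k) h * z i₀ ^ M := by
        simp only [p]
        rw [map_add, MvPolynomial.eval_map, MvPolynomial.eval_monomial, Finsupp.prod_single_index]
        exact pow_zero _
      rw [h6] at h5
      exact h5)
    rw [h0, map_zero] at h1
    exact h1 rfl
  have hfin := hmeas _ hne' c1 _ c2
  refine (min_le_right _ _).trans ?_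
  rw [div_le_iff₀ (by positivity)]
  have hB0 : 0 ≤ B' := by linarith
  calc c ≤ (B' * H ^ a') ^ κ * ‖evM x (D.elim us P' N)‖ := hfin
    _ ≤ (B' * H ^ a') ^ κ * (K' * H ^ k' * ε) := mul_le_mul_of_nonneg_left c3 (by positivity)
    _ = H ^ (a' * κ + k') * ε * (B' ^ κ * K') := by
      rw [mul_pow, ← pow_mul, pow_add]
      ring

end Pool.Agent.H895.SM
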