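import Pool.Agent.H895.SM.Crit2
import Pool.Agent.R352.E.Cnt

/-!
# The criterion in terms of transcendence degrees
-/

set_option autoImplicit false

namespace Pool.Agent.H895.SM

open Set Pool.Agent.R352.E

theorem criterion' {ι : Type} [Finite ι] (x : ι → ℝ) (hx : MeasA x) {n : ℕ} (hn : 0 < n) (u : Fin n → ℝ)
    (h : ¬ AlgebraicIndependent (Algebra.adjoin ℤ (range u)) x) : JointN u := by
  rw [algebraicIndependent_iff] at h
  push Not at h
  obtain ⟨p, hp, hp0⟩ := h
  have hmem : ∀ g : MvPolynomial (Fin n) ℤ, (MvPolynomial.aeval u g : ℝ) ∈ Algebra.adjoin ℤ (range u) := by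
    intro g
    rw [Algebra.adjoin_range_eq_range_aeval]
    exact ⟨g, rfl⟩
  obtain ⟨e, he⟩ : ∃ e : MvPolynomial (Fin n) ℤ →+* Algebra.adjoin ℤ (range u),
      ∀ g, ((e g : Algebra.adjoin ℤ (range u)) : ℝ) = MvPolynomial.aeval u g :=
    ⟨RingHom.codRestrict (MvPolynomial.aeval u : MvPolynomial (Fin n) ℤ →ₐ[ℤ] ℝ).toRingHom _ fun g => hmem g,
      fun g => rfl⟩
  have hsurj : Function.Surjective e := by
    rintro ⟨y, hy⟩
    rw [Algebra.adjoin_range_eq_range_aeval] at hy
    obtain ⟨g, hg⟩ := hy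
    exact ⟨g, Subtype.ext ((he g).trans hg)⟩
  have hcomp : (algebraMap (Algebra.adjoin ℤ (range u)) ℝ).comp e =
      (MvPolynomial.aeval u : MvPolynomial (Fin n) ℤ →ₐ[ℤ] ℝ).toRingHom := RingHom.ext he
  obtain ⟨G, hG⟩ := MvPolynomial.map_surjective e hsurj p
  refine criterion x hx hn u G ?_ ?_
  · rw [← hcomp, ← MvPolynomial.eval₂_map, hG]
    exact hp
  · intro h0
    apply hp0
    rw [← hcomp, ← MvPolynomial.map_map, hG] at h0
    have hinj : Function.Injective (algebraMap (Algebra.adjoin ℤ (range u)) ℝ) := Subtype.val_injective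
    exact MvPolynomial.map_injective _ hinj (by rw [h0, map_zero])

/-- **The criterion.** If `m` numbers with a measure of algebraic independence are algebraic over the
field generated by `u` and by fewer than `m` further numbers, then `u` has a joint transcendence measure. -/
theorem criterion_span {ι κ : Type} [Fintype ι] [Fintype κ] (x : ι → ℝ) (hx : MeasA x) {n : ℕ} (hn : 0 < n)
    (u : Fin n → ℝ) (t : κ → ℝ) (hκ : Fintype.card κ < Fintype.card ι)
    (h : ∀ i, x i ∈ clF (range u ∪ range t)) : JointN u := by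
  refine criterion' x hx hn u fun hind => ?_
  obtain ⟨I, hI⟩ := Mt.exists_isBasis (range u) (subset_univ _)
  have hIfin : I.Finite := (finite_range u).subset hI.subset
  have hIind : AlgebraicIndependent ℚ (fun i : I => (i : ℝ)) := hI.indep
  have hIZ : AlgebraicIndependent ℤ (fun i : I => (i : ℝ)) := hIind.restrictScalars (algebraMap ℤ ℚ).injective_int
  have h1 : AlgebraicIndependent ℤ (Sum.elim x (fun i : I => (i : ℝ))) :=
    hIZ.sumElim_of_tower (S := Algebra.adjoin ℤ (range u)) (by
      rintro _ ⟨i, rfl⟩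
      exact ⟨⟨i, Algebra.subset_adjoin (hI.subset i.2)⟩, rfl⟩) hind
  haveI : Algebra.IsAlgebraic ℤ ℚ := ⟨fun r => (IsFractionRing.isAlgebraic_iff ℤ ℚ ℚ).2 (isAlgebraic_algebraMap r)⟩
  have h2 : AlgebraicIndependent ℚ (Sum.elim x (fun i : I => (i : ℝ))) := h1.extendScalars ℚ
  have := hIfin.fintype
  have h3 := card_le h2 (T := range u ∪ range t) (by
    rintro (i | i)
    · exact h i
    · exact subset_clF _ (Or.inl (hI.subset i.2)))
  have h4 : Mt.eRk (range u ∪ range t) ≤ ((Fintype.card I + Fintype.card κ : ℕ) : ℕ∞) := by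
    refine (Mt.eRk_union_le_eRk_add_encard _ _).trans ?_
    rw [Nat.cast_add]
    refine add_le_add ?_ ?_
    · rw [← hI.encard_eq_eRk, ← ENat.card_eq_coe_fintype_card]
      exact le_rfl
    · rw [← image_univ, ← ENat.card_eq_coe_fintype_card, ← encard_univ]
      exact encard_image_le _ _
  have h5 : Fintype.card (ι ⊕ I) ≤ Fintype.card I + Fintype.card κ := by exact_mod_cast h3.trans h4
  rw [Fintype.card_sum] at h5
  omega

end Pool.Agent.H895.SM
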