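import Pool.Agent.H895.SM.Core
import Pool.Agent.R352.E.Fin

/-!
# A measure of linear independence for values of E-functions

Quantitative form of the theorem of Siegel and Shidlovskii over `ℚ`.
-/

set_option autoImplicit false

open PowerSeries Finset.HasAntidiagonal

namespace Pool.Agent.H895.SM

open Pool.Agent.Y113 Pool.Agent.R352.E

/-- the choice of the parameter -/
lemma choice (c G G1 : ℝ) (hc : 0 ≤ c) (hG : 0 ≤ G) (hG1 : 0 ≤ G1) (c₁ : ℕ) :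
    ∃ C₃ : ℝ, 1 ≤ C₃ ∧ ∀ A : ℝ, 1 ≤ A → ∃ ν : ℕ, c₁ < ν ∧ 2 * (c * A * G ^ ν) ≤ (ν : ℝ) ^ ν ∧
      G1 ^ ν ≤ (ν : ℝ) ^ ν ∧ (ν : ℝ) ^ ν ≤ C₃ * A ^ 6 := by
  obtain ⟨ν₀, h1⟩ := exists_nat_ge (G ^ 2 + G1 + c₁ + 4)
  have hν₀G : G ^ 2 ≤ ν₀ := by
    have : (0 : ℝ) ≤ c₁ := Nat.cast_nonneg _
    linarith
  have hν₀G1 : G1 ≤ ν₀ := by
    have : (0 : ℝ) ≤ c₁ := Nat.cast_nonneg _
    have : 0 ≤ G ^ 2 := by positivity
    linarith
  have hν₀4 : 4 ≤ ν₀ := by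
    have h2 : (0 : ℝ) ≤ c₁ := Nat.cast_nonneg _
    have h3 : 0 ≤ G ^ 2 := by positivity
    have : (4 : ℝ) ≤ ν₀ := by linarith
    exact_mod_cast this
  have hν₀c : c₁ < ν₀ := by
    have h3 : 0 ≤ G ^ 2 := by positivity
    have : (c₁ : ℝ) < ν₀ := by linarith
    exact_mod_cast this
  have hν₀pos : (0 : ℝ) ≤ (ν₀ : ℝ) ^ ν₀ := by positivity
  refine ⟨1 + (ν₀ : ℝ) ^ ν₀ + (4 * c ^ 2 + 1) ^ 3, ?_, fun A hA => ?_⟩
  · have : 0 ≤ (4 * c ^ 2 + 1) ^ 3 := by positivity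
    linarith
  have hA0 : 0 ≤ A := by linarith
  -- the least `ν`
  have hex : ∃ ν : ℕ, ν₀ ≤ ν ∧ (2 * (c * A)) ^ 2 ≤ (ν : ℝ) ^ ν := by
    have htend := tendsto_pow_atTop_atTop_of_one_lt (show (1 : ℝ) < 2 by norm_num)
    obtain ⟨ν, h3, h4⟩ := ((htend.eventually_ge_atTop ((2 * (c * A)) ^ 2)).and
      (Filter.eventually_ge_atTop (max ν₀ 2))).exists
    refine ⟨ν, (le_max_left _ _).trans h4, h3.trans ?_⟩
    refine pow_le_pow_left₀ (by norm_num) ?_ ν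
    exact_mod_cast (le_max_right _ _).trans h4
  classical
  obtain ⟨ν, hν⟩ : ∃ ν, ν = Nat.find hex := ⟨_, rfl⟩
  have hspec := Nat.find_spec hex
  rw [← hν] at hspec
  obtain ⟨hνν₀, hνA⟩ := hspec
  have hν0 : (0 : ℝ) < ν := by
    have : 0 < ν := by omega
    exact_mod_cast this
  refine ⟨ν, lt_of_lt_of_le hν₀c hνν₀, ?_, ?_, ?_⟩
  · -- squares
    have h2 : (G ^ ν) ^ 2 ≤ (ν : ℝ) ^ ν := by
      rw [← pow_mul, mul_comm ν 2, pow_mul]
      refine pow_le_pow_left₀ (by positivity) (hν₀G.trans ?_) ν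
      exact_mod_cast hνν₀
    have h3 : (2 * (c * A * G ^ ν)) ^ 2 ≤ ((ν : ℝ) ^ ν) ^ 2 := by
      have e : (2 * (c * A * G ^ ν)) ^ 2 = (2 * (c * A)) ^ 2 * (G ^ ν) ^ 2 := by ring
      rw [e, sq ((ν : ℝ) ^ ν)]
      exact mul_le_mul hνA h2 (by positivity) (by positivity)
    exact le_of_sq_le_sq h3 (by positivity) 
  · refine pow_le_pow_left₀ hG1 (hν₀G1.trans ?_) ν
    exact_mod_cast hνν₀
  · have hA6 : 1 ≤ A ^ 6 := one_le_pow₀ hA
    have hCn : 0 ≤ (4 * c ^ 2 + 1) ^ 3 := by positivity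
    rcases hνν₀.eq_or_lt with h2 | h2
    · rw [← h2]
      nlinarith
    · obtain ⟨w, hw⟩ : ∃ w, ν = w + 1 := ⟨ν - 1, by omega⟩
      have hw₀ : ν₀ ≤ w := by omega
      have hnot := Nat.find_min hex (m := w) (by rw [← hν]; omega)
      push Not at hnot
      have hlt := hnot hw₀
      have hw4 : (4 : ℝ) ≤ w := by exact_mod_cast (hν₀4.trans hw₀)
      have h3 : (ν : ℝ) ^ ν ≤ ((w : ℝ) ^ w) ^ 3 := by
        have h4 : ((w : ℝ) + 1) ≤ 2 * w := by linarith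
        have h5 : (1 : ℝ) ≤ 2 * w := by linarith
        calc (ν : ℝ) ^ ν = ((w : ℝ) + 1) ^ (w + 1) := by rw [hw]; push_cast; rfl
          _ ≤ (2 * w) ^ (w + 1) := pow_le_pow_left₀ (by positivity) h4 _
          _ ≤ (2 * w) ^ (2 * w) := pow_le_pow_right₀ h5 (by omega)
          _ = (4 : ℝ) ^ w * ((w : ℝ) ^ w) ^ 2 := by
            rw [mul_pow, pow_mul, pow_mul, ← pow_mul (w : ℝ) w 2, mul_comm w 2, pow_mul]
            norm_num
          _ ≤ (w : ℝ) ^ w * ((w : ℝ) ^ w) ^ 2 :=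
            mul_le_mul_of_nonneg_right (pow_le_pow_left₀ (by norm_num) hw4 w) (by positivity)
          _ = ((w : ℝ) ^ w) ^ 3 := by ring
      have h6 : (w : ℝ) ^ w ≤ (4 * c ^ 2 + 1) * A ^ 2 := by
        refine hlt.le.trans ?_
        nlinarith [sq_nonneg A]
      calc (ν : ℝ) ^ ν ≤ ((w : ℝ) ^ w) ^ 3 := h3
        _ ≤ ((4 * c ^ 2 + 1) * A ^ 2) ^ 3 := pow_le_pow_left₀ (by positivity) h6 3
        _ = (4 * c ^ 2 + 1) ^ 3 * A ^ 6 := by ring
        _ ≤ (1 + (ν₀ : ℝ) ^ ν₀ + (4 * c ^ 2 + 1) ^ 3) * A ^ 6 := by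
          refine mul_le_mul_of_nonneg_right ?_ (by positivity)
          linarith

/-- **A measure of linear independence for values of E-functions**, quantitative form of the theorem
of Siegel and Shidlovskii over `ℚ` -/
theorem E_meas {N q : ℕ} {C : ℝ} {y : Fin N → ℚ⟦X⟧} (hE : ESys q C y) (i₀ : Fin N) (h1 : y i₀ = 1)
    (hLI : LinearIndependent (Polynomial ℚ) y) : ∃ (κ : ℕ) (c : ℝ), 0 < c ∧ ∀ a : Fin N → ℤ, a ≠ 0 →
      ∀ A : ℝ, (∀ i, |(a i : ℝ)| ≤ A) → c ≤ A ^ κ * |∑ i, (a i : ℝ) * ev 1 (y i)| := by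
  have hC := hE.one_le
  have hNpos : 0 < N := i₀.pos
  -- the case N = 1
  rcases Nat.lt_or_ge N 2 with hN | hN
  · have hN1 : N = 1 := by omega
    subst hN1
    refine ⟨0, 1, one_pos, fun a ha A _ => ?_⟩
    have hi : ∀ j : Fin 1, j = i₀ := fun j => Subsingleton.elim _ _
    have h2 : ∑ i, (a i : ℝ) * ev 1 (y i) = (a i₀ : ℝ) := by
      rw [Fin.sum_univ_one]
      rw [hi 0, h1, ev_one, mul_one]
    rw [h2, pow_zero, one_mul, ← Int.cast_abs]
    have h3 : a i₀ ≠ 0 := by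
      intro h0
      apply ha
      funext i
      rw [hi i, h0]; rfl
    exact_mod_cast Int.one_le_abs h3
  obtain ⟨B, hB⟩ := hE.der
  have hq1 : (1 : ℝ) ≤ q := by exact_mod_cast hE.hq
  obtain ⟨c₁, hc₁⟩ := rank_nab (T := TQ q) (B := fun i j => (B i j).map (Int.castRingHom ℚ)) hB hLI i₀ h1 1
    one_ne_zero (by
      simp only [TQ, Polynomial.eval_mul, Polynomial.eval_C, Polynomial.eval_X, mul_one]
      exact_mod_cast (by have := hE.hq; omega : q ≠ 0))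
  obtain ⟨b, hb, hBb⟩ : ∃ b : ℕ, 1 ≤ b ∧ ∀ i j, (B i j).natDegree ≤ b := by
    refine ⟨1 + ∑ i, ∑ j, (B i j).natDegree, by omega, fun i j => ?_⟩
    have h2 : (B i j).natDegree ≤ ∑ j, (B i j).natDegree :=
      Finset.single_le_sum (f := fun j => (B i j).natDegree) (fun _ _ => Nat.zero_le _) (Finset.mem_univ j)
    have h3 : ∑ j, (B i j).natDegree ≤ ∑ i, ∑ j, (B i j).natDegree :=
      Finset.single_le_sum (f := fun i => ∑ j, (B i j).natDegree) (fun _ _ => Nat.zero_le _) (Finset.mem_univ i)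
    omega
  obtain ⟨β, hβ0, hβ⟩ : ∃ β : ℝ, 0 ≤ β ∧ ∀ j, ∑ i, l1 (B i j) ≤ β := by
    refine ⟨∑ j, ∑ i, l1 (B i j), Finset.sum_nonneg fun _ _ => Finset.sum_nonneg fun _ _ => l1_nonneg _, fun j => ?_⟩
    exact Finset.single_le_sum (f := fun j => ∑ i, l1 (B i j))
      (fun _ _ => Finset.sum_nonneg fun _ _ => l1_nonneg _) (Finset.mem_univ j)
  -- parameters
  set L : ℕ := 2 * N + 1 with hL
  have hNL : 2 ≤ N * L := by
    calc 2 ≤ N := hN
      _ = N * 1 := (mul_one N).symm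
      _ ≤ N * L := Nat.mul_le_mul_left _ (by omega)
  set g1 : ℝ := 2 * ((L + 2 * b + 1 : ℕ) : ℝ) with hg1
  set g2 : ℝ := q * ((L + 2 * b : ℕ) : ℝ) + β with hg2
  set g3 : ℝ := ((2 * (N * (L + 1) : ℕ)) * (2 * C) ^ (2 * (N * L))) ^ (N * L) with hg3
  set G1 : ℝ := g1 * (g2 ^ 2 * ((L : ℝ) ^ L * g3)) with hG1
  set G2 : ℝ := (L : ℝ) ^ L * g3 * (q : ℝ) ^ 2 * 4 * (2 * C * Real.exp 1) ^ (N * L - 1) with hG2
  set c2 : ℝ := N * C * Real.exp (2 * C * Real.exp 1) with hc2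
  set G : ℝ := G1 ^ (N - 2) * G2 with hG
  set c : ℝ := N * N.factorial * c2 with hc
  have hG0 : 0 ≤ G := by positivity
  have hG10 : 0 ≤ G1 := by positivity
  have hc0 : 0 ≤ c := by positivity
  have hkey : ∀ a : Fin N → ℤ, a ≠ 0 → ∀ A : ℝ, (∀ i, |(a i : ℝ)| ≤ A) → ∀ ν : ℕ, c₁ < ν →
      1 ≤ c * A * G ^ ν / (ν : ℝ) ^ ν + N.factorial * (G1 ^ ν * ((ν : ℝ) ^ ν) ^ (L + 2)) ^ (N - 1) *
        |∑ i, (a i : ℝ) * ev 1 (y i)| := by
    intro a hane A hAi ν hν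
    have hA0 : 0 ≤ A := (abs_nonneg _).trans (hAi i₀)
    have hν1 : 1 ≤ ν := by omega
    have hν1' : (1 : ℝ) ≤ ν := by exact_mod_cast hν1
    obtain ⟨n, hn⟩ : ∃ n, n = L * ν := ⟨_, rfl⟩
    obtain ⟨m₀, hm₀⟩ : ∃ m₀, m₀ = (N * L - 1) * ν := ⟨_, rfl⟩
    obtain ⟨K, hK⟩ : ∃ K, K = 2 * ν := ⟨_, rfl⟩
    have hm₀' : m₀ + ν = N * n := by
      have h2 : N * n = N * L * ν := by rw [hn]; ring
      rw [h2, hm₀, Nat.sub_mul, one_mul]
      have : ν ≤ N * L * ν := Nat.le_mul_of_pos_left ν (by omega)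
      omega
    have h := core1 hE i₀ h1 hB hb hBb hβ hβ0 hc₁ a hane _ le_rfl A hAi L ν n m₀ K (by omega) hν hn hm₀' hK _ rfl
    set A₀ : ℝ := ((N * (n + 1) : ℕ) * (2 * C) ^ (2 * m₀ + 1)) ^ (N * L) with hA₀
    have hA₀0 : 0 ≤ A₀ := by positivity
    have hA₀g : A₀ ≤ g3 ^ ν := A0_le hC hNpos hν1 hn hm₀'
    obtain ⟨u, hu⟩ : ∃ u : ℝ, u = (ν : ℝ) ^ ν := ⟨_, rfl⟩
    rw [← hu]
    have hu1 : 1 ≤ u := by rw [hu]; exact one_le_pow₀ hν1'
    have hu0 : 0 < u := by linarith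
    have hnf : (n.factorial : ℝ) ≤ ((L : ℝ) ^ L) ^ ν * u ^ L := by rw [hn, hu]; exact fac_le L ν
    -- X
    have hX : ((n + K * b : ℕ) + 1) * ((q * (n + K * b : ℕ) + β) ^ K * (n.factorial * A₀)) ≤ G1 ^ ν * u ^ (L + 2) := by
      have hnK : n + K * b = (L + 2 * b) * ν := by rw [hn, hK]; ring
      have h2 : (((n + K * b : ℕ) : ℝ) + 1) ≤ g1 ^ ν := by
        have h3 : (1 : ℝ) ≤ ((L + 2 * b + 1 : ℕ) : ℝ) := by exact_mod_cast (show 1 ≤ L + 2 * b + 1 by omega)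
        refine le_trans ?_ (lin_le_pow h3 hν1)
        rw [hnK]
        push_cast
        nlinarith
      have h4 : (q * ((n + K * b : ℕ) : ℝ) + β) ^ K ≤ (g2 ^ 2) ^ ν * u ^ 2 := by
        have h5 : q * ((n + K * b : ℕ) : ℝ) + β ≤ g2 * ν := by
          rw [hnK, hg2]
          push_cast
          nlinarith
        calc (q * ((n + K * b : ℕ) : ℝ) + β) ^ K ≤ (g2 * ν) ^ K := pow_le_pow_left₀ (by positivity) h5 K
          _ = (g2 ^ 2) ^ ν * u ^ 2 := by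
            rw [hK, hu, mul_pow, ← pow_mul, ← pow_mul, mul_comm ν 2]
      calc ((n + K * b : ℕ) + 1) * ((q * (n + K * b : ℕ) + β) ^ K * (n.factorial * A₀))
          ≤ g1 ^ ν * (((g2 ^ 2) ^ ν * u ^ 2) * ((((L : ℝ) ^ L) ^ ν * u ^ L) * g3 ^ ν)) := by
            refine mul_le_mul h2 ?_ (by positivity) (by positivity)
            refine mul_le_mul h4 ?_ (by positivity) (by positivity)
            exact mul_le_mul hnf hA₀g hA₀0 (by positivity)
        _ = G1 ^ ν * u ^ (L + 2) := by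
            rw [hG1, mul_pow g1, mul_pow (g2 ^ 2), mul_pow ((L : ℝ) ^ L), pow_add u]
            generalize g1 ^ ν = x1
            generalize (g2 ^ 2) ^ ν = x2
            generalize ((L : ℝ) ^ L) ^ ν = x3
            generalize g3 ^ ν = x4
            ring
    have hLL : n.factorial * (N * A₀ * C) * (q : ℝ) ^ K * K.factorial *
        ((2 * C * Real.exp 1) ^ m₀ / m₀.factorial * Real.exp (2 * C * Real.exp 1)) ≤
        c2 * G2 ^ ν * (u ^ (L + 2) / u ^ (N * L - 2)) := by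
      have h2 : (K.factorial : ℝ) ≤ (4 : ℝ) ^ ν * u ^ 2 := by
        rw [hK]
        refine (fac_le 2 ν).trans (le_of_eq ?_)
        rw [hu]
        norm_num
      have h3 : (q : ℝ) ^ K = ((q : ℝ) ^ 2) ^ ν := by rw [hK, pow_mul]
      have h4 : (2 * C * Real.exp 1) ^ m₀ = ((2 * C * Real.exp 1) ^ (N * L - 1)) ^ ν := by rw [hm₀, pow_mul]
      have h5 : u ^ (N * L - 2) ≤ (m₀.factorial : ℝ) := by
        have := fac_ge (R := N * L - 1) (ν := ν) (by omega)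
        rw [hm₀, hu, show N * L - 2 = N * L - 1 - 1 by omega]
        exact this
      have h6 : ((2 * C * Real.exp 1) ^ m₀ / m₀.factorial) ≤ ((2 * C * Real.exp 1) ^ (N * L - 1)) ^ ν / u ^ (N * L - 2) := by
        rw [h4]
        exact div_le_div_of_nonneg_left (by positivity) (by positivity) h5
      calc n.factorial * (N * A₀ * C) * (q : ℝ) ^ K * K.factorial *
            ((2 * C * Real.exp 1) ^ m₀ / m₀.factorial * Real.exp (2 * C * Real.exp 1))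
          ≤ (((L : ℝ) ^ L) ^ ν * u ^ L) * (N * g3 ^ ν * C) * ((q : ℝ) ^ 2) ^ ν * ((4 : ℝ) ^ ν * u ^ 2) *
            (((2 * C * Real.exp 1) ^ (N * L - 1)) ^ ν / u ^ (N * L - 2) * Real.exp (2 * C * Real.exp 1)) := by
            rw [← h3]
            refine mul_le_mul ?_ ?_ (by positivity) (by positivity)
            · refine mul_le_mul ?_ h2 (by positivity) (by positivity)
              refine mul_le_mul_of_nonneg_right ?_ (by positivity)
              refine mul_le_mul hnf ?_ (by positivity) (by positivity)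
              refine mul_le_mul_of_nonneg_right ?_ (by positivity)
              exact mul_le_mul_of_nonneg_left hA₀g (by positivity)
            · exact mul_le_mul_of_nonneg_right h6 (by positivity)
        _ = c2 * G2 ^ ν * (u ^ (L + 2) / u ^ (N * L - 2)) := by
            rw [hG2, hc2, mul_pow, mul_pow, mul_pow, mul_pow, pow_add]; ring
    have hcomb : (1 : ℝ) ≤ N * (N.factorial * (A * (G1 ^ ν * u ^ (L + 2)) ^ (N - 2)) *
        (c2 * G2 ^ ν * (u ^ (L + 2) / u ^ (N * L - 2)))) + N.factorial * (G1 ^ ν * u ^ (L + 2)) ^ (N - 1) *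
        |∑ i, (a i : ℝ) * ev 1 (y i)| := by
      refine h.trans (add_le_add ?_ ?_)
      · refine mul_le_mul_of_nonneg_left ?_ (by positivity)
        refine mul_le_mul ?_ hLL (by positivity) (by positivity)
        refine mul_le_mul_of_nonneg_left ?_ (by positivity)
        refine mul_le_mul_of_nonneg_left ?_ hA0
        exact pow_le_pow_left₀ (by positivity) hX _
      · refine mul_le_mul_of_nonneg_right ?_ (abs_nonneg _)
        refine mul_le_mul_of_nonneg_left ?_ (by positivity)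
        exact pow_le_pow_left₀ (by positivity) hX _
    have hexp : u ^ (N * L - 2) = (u ^ (L + 2)) ^ (N - 2) * u ^ (L + 2) * u := by
      rw [← pow_mul, ← pow_add, ← pow_succ]
      congr 1
      obtain ⟨M, rfl⟩ : ∃ M, N = M + 2 := ⟨N - 2, by omega⟩
      simp only [Nat.add_sub_cancel]
      have e1 : (M + 2) * L = (L + 2) * M + (L + 2) + 1 + 2 := by
        rw [hL]; ring
      omega
    have h7 : N * (N.factorial * (A * (G1 ^ ν * u ^ (L + 2)) ^ (N - 2)) *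
        (c2 * G2 ^ ν * (u ^ (L + 2) / u ^ (N * L - 2)))) = c * A * G ^ ν / u := by
      rw [hexp, hc, hG, mul_pow (G1 ^ ν), mul_pow (G1 ^ (N - 2)), ← pow_mul G1, ← pow_mul G1, mul_comm ν (N - 2)]
      field_simp
    rw [h7] at hcomb
    exact hcomb
  obtain ⟨C₃, hC₃, hch⟩ := choice c G G1 hc0 hG0 hG10 c₁
  refine ⟨6 * ((L + 3) * (N - 1)), 1 / (2 * (N.factorial * C₃ ^ ((L + 3) * (N - 1)))), by positivity,
    fun a hane A hAi => ?_⟩
  -- `A ≥ 1`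
  have hA1 : 1 ≤ A := by
    obtain ⟨i, hi⟩ := Function.ne_iff.1 hane
    refine le_trans ?_ (hAi i)
    rw [← Int.cast_abs]
    exact_mod_cast Int.one_le_abs hi
  obtain ⟨ν, hν, h3, h4, h5⟩ := hch A hA1
  have h6 := hkey a hane A hAi ν hν
  have hν0 : (0 : ℝ) < ν := by
    have : 0 < ν := by omega
    exact_mod_cast this
  have hu0 : (0 : ℝ) < (ν : ℝ) ^ ν := by positivity
  have h7 : c * A * G ^ ν / (ν : ℝ) ^ ν ≤ 1 / 2 := by
    rw [div_le_iff₀ hu0]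
    linarith
  have h8 : (G1 ^ ν * ((ν : ℝ) ^ ν) ^ (L + 2)) ^ (N - 1) ≤ C₃ ^ ((L + 3) * (N - 1)) * A ^ (6 * ((L + 3) * (N - 1))) := by
    calc (G1 ^ ν * ((ν : ℝ) ^ ν) ^ (L + 2)) ^ (N - 1)
        ≤ ((ν : ℝ) ^ ν * ((ν : ℝ) ^ ν) ^ (L + 2)) ^ (N - 1) := by
          refine pow_le_pow_left₀ (by positivity) ?_ _
          exact mul_le_mul_of_nonneg_right h4 (by positivity)
      _ = ((ν : ℝ) ^ ν) ^ ((L + 3) * (N - 1)) := by
          rw [← pow_succ', ← pow_mul]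
      _ ≤ (C₃ * A ^ 6) ^ ((L + 3) * (N - 1)) := pow_le_pow_left₀ hu0.le h5 _
      _ = _ := by rw [mul_pow, ← pow_mul]
  have h9 : (1 : ℝ) / 2 ≤ N.factorial * (C₃ ^ ((L + 3) * (N - 1)) * A ^ (6 * ((L + 3) * (N - 1)))) *
      |∑ i, (a i : ℝ) * ev 1 (y i)| := by
    have h10 : (N.factorial : ℝ) * (G1 ^ ν * ((ν : ℝ) ^ ν) ^ (L + 2)) ^ (N - 1) * |∑ i, (a i : ℝ) * ev 1 (y i)| ≤
        N.factorial * (C₃ ^ ((L + 3) * (N - 1)) * A ^ (6 * ((L + 3) * (N - 1)))) *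
      |∑ i, (a i : ℝ) * ev 1 (y i)| := by
      refine mul_le_mul_of_nonneg_right ?_ (abs_nonneg _)
      exact mul_le_mul_of_nonneg_left h8 (by positivity)
    linarith
  rw [div_le_iff₀ (by positivity)]
  linarith

end Pool.Agent.H895.SM
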