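import Pool.Agent.H895.SM.Size
import Pool.Agent.R473.JC.Final

/-!
# Joint transcendence measures from measures of algebraic independence
-/

set_option autoImplicit false

namespace Pool.Agent.H895.SM

open Polynomial Finset
open Pool.Agent.R356 Pool.Agent.TH456.TM Pool.Agent.R473.JC

/-- the length of a polynomial in several variables -/
noncomputable def lenM {ι : Type*} (P : MvPolynomial ι ℤ) : ℝ := ∑ s ∈ P.support, |((P.coeff s : ℤ) : ℝ)|

lemma lenM_eq {ι : Type*} (P : MvPolynomial ι ℤ) (S : Finset (ι →₀ ℕ)) (hS : P.support ⊆ S) :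
    lenM P = ∑ s ∈ S, |((P.coeff s : ℤ) : ℝ)| := by
  unfold lenM
  refine Finset.sum_subset hS fun s _ hs => ?_
  rw [MvPolynomial.notMem_support_iff.1 hs]
  simp

lemma coeff_le_lenM {ι : Type*} (P : MvPolynomial ι ℤ) (s : ι →₀ ℕ) : |((P.coeff s : ℤ) : ℝ)| ≤ lenM P := by
  by_cases hs : s ∈ P.support
  · exact Finset.single_le_sum (f := fun s => |((P.coeff s : ℤ) : ℝ)|) (fun _ _ => abs_nonneg _) hs
  · rw [MvPolynomial.notMem_support_iff.1 hs, Int.cast_zero, abs_zero]
    exact Finset.sum_nonneg fun _ _ => abs_nonneg _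

lemma isLenM {ι : Type*} : IsLen (lenM : MvPolynomial ι ℤ → ℝ) where
  nonneg P := Finset.sum_nonneg fun _ _ => abs_nonneg _
  zero := by simp [lenM]
  one := by
    classical
    have h1 : (1 : MvPolynomial ι ℤ).support ⊆ {0} := by
      rw [← MvPolynomial.C_1, ← MvPolynomial.monomial_zero']
      exact MvPolynomial.support_monomial_subset
    rw [lenM_eq _ _ h1]
    simp
  neg P := by
    unfold lenM
    rw [MvPolynomial.support_neg]
    exact Finset.sum_congr rfl fun s _ => by rw [MvPolynomial.coeff_neg]; simp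
  add P Q := by
    classical
    have h1 : (P + Q).support ⊆ P.support ∪ Q.support := MvPolynomial.support_add
    rw [lenM_eq _ _ h1, lenM_eq P _ Finset.subset_union_left, lenM_eq Q _ Finset.subset_union_right,
      ← Finset.sum_add_distrib]
    refine Finset.sum_le_sum fun s _ => ?_
    rw [MvPolynomial.coeff_add]
    push_cast
    exact abs_add_le _ _
  mul P Q := by
    classical
    -- real polynomials with the absolute values of the coefficients
    have aux : ∀ P : MvPolynomial ι ℤ, ∃ S : MvPolynomial ι ℝ, (∀ s, S.coeff s = |((P.coeff s : ℤ) : ℝ)|) ∧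
        MvPolynomial.eval (fun _ => (1 : ℝ)) S = lenM P := by
      intro P
      refine ⟨∑ s ∈ P.support, MvPolynomial.monomial s |((P.coeff s : ℤ) : ℝ)|, fun s => ?_, ?_⟩
      · rw [MvPolynomial.coeff_sum]
        simp only [MvPolynomial.coeff_monomial]
        rw [Finset.sum_ite_eq' P.support s]
        split_ifs with hs
        · rfl
        · rw [MvPolynomial.notMem_support_iff.1 hs]
          simp
      · rw [map_sum]
        refine Finset.sum_congr rfl fun s _ => ?_
        rw [MvPolynomial.eval_monomial]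
        simp
    obtain ⟨S, hS1, hS2⟩ := aux P
    obtain ⟨T, hT1, hT2⟩ := aux Q
    rw [← hS2, ← hT2, ← map_mul]
    have h3 : MvPolynomial.eval (fun _ => (1 : ℝ)) (S * T) =
        ∑ s ∈ (S * T).support ∪ (P * Q).support, (S * T).coeff s := by
      rw [MvPolynomial.eval_eq]
      have h4 : ∑ s ∈ (S * T).support, MvPolynomial.coeff s (S * T) * ∏ i ∈ s.support, (1 : ℝ) ^ s i =
          ∑ s ∈ (S * T).support, MvPolynomial.coeff s (S * T) :=
        Finset.sum_congr rfl fun s _ => by simp
      rw [h4]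
      refine Finset.sum_subset Finset.subset_union_left fun s _ hs => ?_
      rw [MvPolynomial.notMem_support_iff.1 hs]
    rw [h3, lenM_eq _ _ Finset.subset_union_right]
    refine Finset.sum_le_sum fun s _ => ?_
    rw [MvPolynomial.coeff_mul, MvPolynomial.coeff_mul]
    push_cast
    refine (Finset.abs_sum_le_sum_abs _ _).trans (Finset.sum_le_sum fun p _ => ?_)
    rw [abs_mul, hS1, hT1]

/-- polynomials of bounded total degree -/
def totF (ι : Type*) (n : ℕ) : AddSubgroup (MvPolynomial ι ℤ) where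
  carrier := {P | P.totalDegree ≤ n}
  add_mem' {a b} ha hb := (MvPolynomial.totalDegree_add a b).trans (max_le ha hb)
  zero_mem' := by simp
  neg_mem' {a} ha := by
    show (-a).totalDegree ≤ n
    rw [MvPolynomial.totalDegree_neg]; exact ha

lemma filt_tot (ι : Type*) : Filt (totF ι) where
  one := by show (1 : MvPolynomial ι ℤ).totalDegree ≤ 0; simp
  mul m n a b ha hb := (MvPolynomial.totalDegree_mul a b).trans (Nat.add_le_add ha hb)
  mono m n hmn a ha := le_trans ha hmn
  ex a := ⟨a.totalDegree, by show a.totalDegree ≤ a.totalDegree; exact le_rfl⟩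

/-- evaluation at real numbers -/
noncomputable def evM {ι : Type*} (x : ι → ℝ) : MvPolynomial ι ℤ →+* ℂ :=
  Complex.ofRealHom.comp (MvPolynomial.aeval x).toRingHom

lemma evM_apply {ι : Type*} (x : ι → ℝ) (P : MvPolynomial ι ℤ) : evM x P = ((MvPolynomial.aeval x P : ℝ) : ℂ) := rfl

lemma sz_tot {ι : Type*} (x : ι → ℝ) (T : ℝ) (hT : 1 ≤ T) (hx : ∀ i, |x i| ≤ T) : Sz lenM (totF ι) (evM x) T where
  len := isLenM
  filt := filt_tot ι
  one_le := hT
  val n P hP := by
    rw [evM_apply, Complex.norm_real, Real.norm_eq_abs]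
    conv_lhs => rw [MvPolynomial.as_sum P, map_sum]
    refine (Finset.abs_sum_le_sum_abs _ _).trans ?_
    unfold lenM
    rw [Finset.sum_mul]
    refine Finset.sum_le_sum fun s hs => ?_
    rw [MvPolynomial.aeval_monomial, eq_intCast, abs_mul]
    refine mul_le_mul_of_nonneg_left ?_ (abs_nonneg _)
    have h1 : (s.sum fun _ e => e) ≤ n := (MvPolynomial.le_totalDegree hs).trans hP
    have h2 : |s.prod fun i k => x i ^ k| ≤ T ^ (s.sum fun _ e => e) := by
      rw [Finsupp.prod, Finsupp.sum, Finset.abs_prod, ← Finset.prod_pow_eq_pow_sum]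
      refine Finset.prod_le_prod (fun i _ => abs_nonneg _) fun i _ => ?_
      rw [abs_pow]
      exact pow_le_pow_left₀ (abs_nonneg _) (hx i) _
    exact h2.trans (pow_le_pow_right₀ hT h1)

lemma MeasA.toG {ι : Type*} {x : ι → ℝ} (hx : MeasA x) : MeasG lenM (totF ι) (evM x) := by
  intro D
  obtain ⟨κ, c, hc, h⟩ := hx D
  refine ⟨κ, c, hc, fun a ha haD A hA => ?_⟩
  rw [evM_apply, Complex.norm_real, Real.norm_eq_abs]
  exact h a ha haD A fun s => (coeff_le_lenM a s).trans hA

lemma JointC.toR {u v : ℝ} (h : JointC (u : ℂ) (v : ℂ)) : JointR u v := by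
  intro D
  obtain ⟨κ, c, hc, h1⟩ := h D
  refine ⟨κ + 1, c, by positivity, hc, fun P Q hP hQ hPD hQD H hPH hQH => ?_⟩
  have hH := one_le_of_coeff P hP H hPH
  have hH0 : 0 < H := by linarith
  have h2 := h1 P Q hP hQ hPD hQD H hH hPH hQH
  rw [← abs_aeval, ← abs_aeval] at h2
  have h3 : H ^ (-((κ : ℝ) + 1)) ≤ (H ^ κ)⁻¹ := by
    rw [← Real.rpow_natCast, ← Real.rpow_neg hH0.le]
    exact Real.rpow_le_rpow_of_exponent_le hH (by linarith)
  calc c * H ^ (-((κ : ℝ) + 1)) ≤ c * (H ^ κ)⁻¹ := mul_le_mul_of_nonneg_left h3 hc.le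
    _ ≤ max |aeval u P| |aeval v Q| := by
      rw [← div_eq_mul_inv, div_le_iff₀ (by positivity)]
      linarith

/-- the linear polynomial `A V + B U + C₀`, the inner variable is `U` and the outer one is `V` -/
noncomputable def linG {R : Type*} [CommRing R] (A B C₀ : R) : R[X][X] := C (C A) * X + C (C B * X + C C₀)

lemma linG_eval {R : Type*} [CommRing R] (A B C₀ : R) (φ : R →+* ℂ) (u v : ℂ) :
    ((linG A B C₀).map (eval₂RingHom φ u)).eval v = φ A * v + φ B * u + φ C₀ := by
  unfold linG
  simp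
  ring

/-- **Two numbers with a linear relation over the ring generated by numbers with a measure of
algebraic independence** -/
theorem pair_of_lin {ι : Type*} [Finite ι] (x : ι → ℝ) (hx : MeasA x) (A B C₀ : MvPolynomial ι ℤ) (u v : ℝ)
    (h : MvPolynomial.aeval x A * v + MvPolynomial.aeval x B * u + MvPolynomial.aeval x C₀ = 0)
    (hne : ∀ α β : ℂ, MvPolynomial.map (Int.castRingHom ℂ) A * MvPolynomial.C β +
      MvPolynomial.map (Int.castRingHom ℂ) B * MvPolynomial.C α + MvPolynomial.map (Int.castRingHom ℂ) C₀ ≠ 0) :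
    JointR u v := by
  classical
  haveI := Fintype.ofFinite ι
  obtain ⟨T, hT⟩ : ∃ T : ℝ, T = 1 + (|u| + |v| + ∑ i, |x i|) := ⟨_, rfl⟩
  have hs : 0 ≤ ∑ i, |x i| := Finset.sum_nonneg fun _ _ => abs_nonneg _
  have hT1 : 1 ≤ T := by rw [hT]; linarith [abs_nonneg u, abs_nonneg v]
  have hxT : ∀ i, |x i| ≤ T := fun i => by
    have := Finset.single_le_sum (f := fun i => |x i|) (fun _ _ => abs_nonneg _) (Finset.mem_univ i)
    rw [hT]; linarith [abs_nonneg u, abs_nonneg v]
  refine JointC.toR (elim2 (sz_tot x T hT1 hxT) hx.toG (u : ℂ) (v : ℂ) ?_ ?_ (linG A B C₀) ?_ fun S => ?_)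
  · rw [Complex.norm_real, Real.norm_eq_abs, hT]; linarith [abs_nonneg v]
  · rw [Complex.norm_real, Real.norm_eq_abs, hT]; linarith [abs_nonneg u]
  · rw [linG_eval, evM_apply, evM_apply, evM_apply]
    exact_mod_cast h
  · -- a point at which none of the polynomials vanishes
    have h1 : ∏ p ∈ S, (MvPolynomial.map (Int.castRingHom ℂ) A * MvPolynomial.C p.2 +
      MvPolynomial.map (Int.castRingHom ℂ) B * MvPolynomial.C p.1 + MvPolynomial.map (Int.castRingHom ℂ) C₀) ≠ 0 :=
      Finset.prod_ne_zero_iff.2 fun p _ => hne p.1 p.2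
    obtain ⟨z, hz⟩ : ∃ z : ι → ℂ, MvPolynomial.eval z (∏ p ∈ S, (MvPolynomial.map (Int.castRingHom ℂ) A * MvPolynomial.C p.2 +
      MvPolynomial.map (Int.castRingHom ℂ) B * MvPolynomial.C p.1 + MvPolynomial.map (Int.castRingHom ℂ) C₀)) ≠ 0 := by
      by_contra hcon
      push Not at hcon
      exact h1 (MvPolynomial.funext fun z => by rw [hcon z, map_zero])
    refine ⟨MvPolynomial.eval₂Hom (Int.castRingHom ℂ) z, fun p hp => ?_⟩
    rw [linG_eval]
    rw [map_prod] at hz
    have h2 := Finset.prod_ne_zero_iff.1 hz p hp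
    rw [map_add, map_add, map_mul, map_mul, MvPolynomial.eval_C, MvPolynomial.eval_C, MvPolynomial.eval_map,
      MvPolynomial.eval_map, MvPolynomial.eval_map] at h2
    exact h2

/-- the relation `x_i^a v + x_i^b (c x_j - u) = 0` -/
theorem pair_of_rel {ι : Type*} [Finite ι] (x : ι → ℝ) (hx : MeasA x) (i j : ι) (hij : i ≠ j) (a b : ℕ) (c : ℤ)
    (hc : c ≠ 0) (u v : ℝ) (h : x i ^ a * v + x i ^ b * (c * x j - u) = 0) : JointR u v := by
  classical
  refine pair_of_lin x hx (MvPolynomial.X i ^ a) (-(MvPolynomial.X i ^ b))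
    (MvPolynomial.X i ^ b * (MvPolynomial.C c * MvPolynomial.X j)) u v ?_ fun α β h0 => ?_
  · simp only [map_pow, map_neg, map_mul, MvPolynomial.aeval_X, eq_intCast, map_intCast]
    linarith
  · have key : ∀ z : ℂ, β - α + c * z = 0 := by
      intro z
      have h1 := congrArg (MvPolynomial.eval (fun k => if k = j then z else 1)) h0
      simp only [map_add, map_mul, map_pow, map_neg, MvPolynomial.map_X, MvPolynomial.eval_X,
        MvPolynomial.eval_C, if_neg hij, if_true, one_pow, one_mul, map_zero, eq_intCast, map_intCast] at h1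
      linear_combination h1
    have h1 := key 0
    have h2 := key 1
    have h3 : (c : ℂ) = 0 := by linear_combination h2 - h1
    exact hc (by exact_mod_cast h3)

end Pool.Agent.H895.SM
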