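import Pool.Agent.H895.SM.Meas
import Pool.Agent.R352.E.Val

/-!
# A measure of algebraic independence for values of E-functions
-/

set_option autoImplicit false
set_option linter.unusedSectionVars false

open PowerSeries Finset.HasAntidiagonal

namespace Pool.Agent.H895.SM

open Pool.Agent.Y113 Pool.Agent.R352.E

/-- the numbers `x i` have a measure of algebraic independence of polynomial type in every degree -/
def MeasA {ι : Type*} (x : ι → ℝ) : Prop :=
  ∀ D : ℕ, ∃ (κ : ℕ) (c : ℝ), 0 < c ∧ ∀ P : MvPolynomial ι ℤ, P ≠ 0 → P.totalDegree ≤ D →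
    ∀ A : ℝ, (∀ s, |((P.coeff s : ℤ) : ℝ)| ≤ A) → c ≤ A ^ κ * |MvPolynomial.aeval x P|

lemma coeff_rename_le {ι κ : Type*} (g : ι → κ) (hg : Function.Injective g) (P : MvPolynomial ι ℤ) (A : ℝ)
    (hA : ∀ s, |((P.coeff s : ℤ) : ℝ)| ≤ A) (s : κ →₀ ℕ) : |(((MvPolynomial.rename g P).coeff s : ℤ) : ℝ)| ≤ A := by
  by_cases h : (MvPolynomial.rename g P).coeff s = 0
  · rw [h, Int.cast_zero, abs_zero]
    exact (abs_nonneg _).trans (hA 0)
  · obtain ⟨u, hu, _⟩ := MvPolynomial.coeff_rename_ne_zero _ _ _ h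
    rw [← hu, MvPolynomial.coeff_rename_mapDomain g hg]
    exact hA u

lemma MeasA.comp {ι κ : Type*} {x : κ → ℝ} (hx : MeasA x) (g : ι → κ) (hg : Function.Injective g) :
    MeasA (fun i => x (g i)) := by
  intro D
  obtain ⟨k, c, hc, h⟩ := hx D
  refine ⟨k, c, hc, fun P hP hPD A hA => ?_⟩
  have h1 := h (MvPolynomial.rename g P) ?_ ((MvPolynomial.totalDegree_rename_le g P).trans hPD) A
    (coeff_rename_le g hg P A hA)
  · rw [MvPolynomial.aeval_rename] at h1
    exact h1
  · intro h0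
    exact hP (MvPolynomial.rename_injective g hg (by rw [h0, map_zero]))

section

variable {σ : Type} [Fintype σ] [LinearOrder σ] {t : Tw σ} {q : ℕ} {f : σ → ℚ⟦X⟧}

/-- measure of linear independence of the values at `1` of the monomials -/
theorem val_meas (R : Real' t q f) {M J₀ : ℕ} (hM : ∀ v, v < t.w → t.m v ≤ M) (hM1 : 1 ≤ M) [Fintype (Idx t M J₀)] :
    ∃ (κ : ℕ) (c : ℝ), 0 < c ∧ ∀ a : Idx t M J₀ → ℤ, a ≠ 0 → ∀ A : ℝ, (∀ s, |(a s : ℝ)| ≤ A) →
      c ≤ A ^ κ * |∑ s : Idx t M J₀, (a s : ℝ) * ev 1 (mon f s.1)| := by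
  classical
  set N := Fintype.card (Idx t M J₀) with hN
  let e : Fin N ≃ Idx t M J₀ := (Fintype.equivFin _).symm
  set y : Fin N → ℚ⟦X⟧ := fun i => mon f (e i).1 with hy
  obtain ⟨C, hC, h1, h2⟩ := EF.common (y := y) (fun i => EF_mon R (e i).2.1)
  have hSys : ESys q C y :=
    { one_le := hC
      hq := R.hq
      size := h1
      den := h2
      der := by
        have h3 := fun i => deriv_Sp R hM hM1 (e i)
        choose B hB using h3
        refine ⟨fun i j => B i (e j), fun i => ?_⟩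
        rw [hy, hB i, ← Equiv.sum_comp e] }
  have h0 : e (e.symm ⟨0, by simp⟩) = (⟨0, by simp⟩ : Idx t M J₀) := e.apply_symm_apply _
  obtain ⟨κ, c, hc, h3⟩ := E_meas hSys (e.symm ⟨0, by simp⟩) (by
    rw [hy]
    simp only [h0]
    rw [mon_eq]; simp) ((mon_LI R).comp e e.injective)
  refine ⟨κ, c, hc, fun a ha A hA => ?_⟩
  have h4 := h3 (fun i => a (e i)) (by
    intro h5
    apply ha
    funext s
    have := congrFun h5 (e.symm s)
    simpa using this) A (fun i => hA _)
  rw [← Equiv.sum_comp e]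
  exact h4

/-- measure of algebraic independence of the values at `1` -/
theorem poly_meas (R : Real' t q f) : MeasA (fun i : {i : σ // i ≠ t.z} => ev 1 (f i.1)) := by
  classical
  intro D
  obtain ⟨M, hM1, hM⟩ : ∃ M : ℕ, 1 ≤ M ∧ ∀ v, v < t.w → t.m v ≤ M := by
    refine ⟨1 + ∑ v, t.m v, by omega, fun v _ => ?_⟩
    have := Finset.single_le_sum (f := fun v => t.m v) (fun _ _ => Nat.zero_le _) (Finset.mem_univ v)
    omega
  haveI : Finite (Idx t M (M * D)) := Idx_finite t hM1
  letI : Fintype (Idx t M (M * D)) := Fintype.ofFinite _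
  obtain ⟨κ, c, hc, h⟩ := val_meas R hM hM1 (J₀ := M * D)
  refine ⟨κ, c, hc, fun p hp hpD A hA => ?_⟩
  set p' : MvPolynomial σ ℤ := MvPolynomial.rename Subtype.val p with hp'
  have hinj : Function.Injective (MvPolynomial.rename (R := ℤ) (Subtype.val : {i : σ // i ≠ t.z} → σ)) :=
    MvPolynomial.rename_injective _ Subtype.val_injective
  have hp'0 : p' ≠ 0 := by
    intro h0
    apply hp
    apply hinj
    rw [← hp', h0, map_zero]
  have hp'D : p'.totalDegree ≤ D := (MvPolynomial.totalDegree_rename_le _ p).trans hpD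
  have hval : MvPolynomial.aeval (fun i : σ => ev 1 (f i)) p' =
      MvPolynomial.aeval (fun i : {i : σ // i ≠ t.z} => ev 1 (f i.1)) p := by
    rw [hp', MvPolynomial.aeval_rename]
    rfl
  have hz : ∀ s ∈ p'.support, s t.z = 0 := by
    intro s hs
    have h1 := MvPolynomial.coeff_rename_ne_zero _ _ _ (MvPolynomial.mem_support_iff.1 hs)
    obtain ⟨u, hu, _⟩ := h1
    rw [← hu]
    apply Finsupp.mapDomain_of_notMem_range
    rintro ⟨i, hi⟩
    exact i.2 hi
  have hmem : ∀ s ∈ p'.support, s t.z = 0 ∧ s t.w + M * ∑ v ∈ t.V, s v ≤ M * D := by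
    intro s hs
    refine ⟨hz s hs, ?_⟩
    have h1 : (s.sum fun _ e => e) ≤ D := (MvPolynomial.le_totalDegree hs).trans hp'D
    rw [Finsupp.sum_fintype _ _ (fun _ => rfl)] at h1
    have h2 : s t.w + ∑ v ∈ t.V, s v ≤ ∑ i, s i := by
      have h3 : t.w ∉ t.V := fun h => lt_irrefl _ (t.mem_V.1 h)
      rw [← Finset.sum_insert h3]
      exact Finset.sum_le_sum_of_subset (Finset.subset_univ _)
    calc s t.w + M * ∑ v ∈ t.V, s v ≤ M * s t.w + M * ∑ v ∈ t.V, s v :=
          Nat.add_le_add_right (Nat.le_mul_of_pos_left _ hM1) _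
      _ = M * (s t.w + ∑ v ∈ t.V, s v) := by ring
      _ ≤ M * D := Nat.mul_le_mul_left _ (h2.trans h1)
  have h2 := h (fun s => MvPolynomial.coeff s.1 p') (by
    intro h0
    obtain ⟨s, hs⟩ := MvPolynomial.support_nonempty.2 hp'0
    have := congrFun h0 ⟨s, hmem s hs⟩
    exact (MvPolynomial.mem_support_iff.1 hs) this) A
    (fun s => coeff_rename_le _ Subtype.val_injective p A hA s.1)
  have h3 : ∑ s : Idx t M (M * D), ((MvPolynomial.coeff s.1 p' : ℤ) : ℝ) * ev 1 (mon f s.1) =
      MvPolynomial.aeval (fun i : σ => ev 1 (f i)) p' := by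
    have h1 : ∑ s : Idx t M (M * D), ((MvPolynomial.coeff s.1 p' : ℤ) : ℝ) * ev 1 (mon f s.1) =
        ∑ s ∈ (Finset.univ : Finset (Idx t M (M * D))).map ⟨Subtype.val, Subtype.val_injective⟩,
          ((MvPolynomial.coeff s p' : ℤ) : ℝ) * ev 1 (mon f s) := by
      rw [Finset.sum_map]; rfl
    rw [h1]
    have h2 : p'.support ⊆ (Finset.univ : Finset (Idx t M (M * D))).map ⟨Subtype.val, Subtype.val_injective⟩ := by
      intro s hs
      rw [Finset.mem_map]
      exact ⟨⟨s, hmem s hs⟩, Finset.mem_univ _, rfl⟩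
    rw [← Finset.sum_subset h2 (fun s _ hs => by rw [MvPolynomial.notMem_support_iff.1 hs]; simp)]
    conv_rhs => rw [MvPolynomial.as_sum p', map_sum]
    refine Finset.sum_congr rfl fun s _ => ?_
    rw [MvPolynomial.aeval_monomial, ev_mon R, Finsupp.prod_fintype _ _ (fun i => pow_zero _), eq_intCast]
  rw [h3, hval] at h2
  exact h2

end

/-- measure of algebraic independence of `exp (-1/q)` and the numbers `E_l (m_i / q)`, `1 ≤ l ≤ J` -/
theorem EE_meas (J k : ℕ) (mm : Fin k → ℕ) (hinj : Function.Injective mm) (hpos : ∀ i, 1 ≤ mm i) {q : ℕ} (hq : 1 ≤ q) :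
    MeasA (fun o : Option (Fin J × Fin k) =>
      o.elim (Real.exp (-1 / q)) (fun p => EE (p.1 + 1) ((mm p.2 : ℝ) / q))) := by
  have h1 := poly_meas (real_tw J k mm hinj hpos hq)
  -- reindexing
  let g : Option (Fin J × Fin k) → {i : Sg J k // i ≠ (tw J k mm hinj hpos).z} := fun o =>
    match o with
    | none => ⟨toLex (Sum.inr 0), fun h => by
        have := Sum.inr_injective (toLex.injective h)
        exact absurd this (by decide)⟩
    | some p => ⟨toLex (Sum.inl (toLex (Fin.rev p.1, p.2))), fun h => Sum.inl_ne_inr (toLex.injective h)⟩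
  have hg : Function.Injective g := by
    intro o o' h
    rcases o with _ | p <;> rcases o' with _ | p'
    · rfl
    · exact absurd (toLex.injective (congrArg Subtype.val h)) Sum.inr_ne_inl
    · exact absurd (toLex.injective (congrArg Subtype.val h)) Sum.inl_ne_inr
    · have h2 := toLex.injective (Sum.inl_injective (toLex.injective (congrArg Subtype.val h)))
      have h3 := congrArg Prod.fst h2
      have h4 := congrArg Prod.snd h2
      simp only at h3 h4
      have h5 := Fin.rev_injective h3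
      rw [Prod.ext h5 h4]
  have h2 := h1.comp g hg
  convert h2 using 1
  funext o
  rcases o with _ | p
  · show Real.exp (-1 / q) = ev 1 (wS q)
    rw [ev_wS]
  · show EE (p.1 + 1) ((mm p.2 : ℝ) / q) = ev 1 (ES (J - (Fin.rev p.1 : Fin J)) ((mm p.2 : ℚ) / q))
    rw [ev_ES _ _ _ hq]
    congr 1
    rw [Fin.val_rev]
    have := p.1.2
    omega

end Pool.Agent.H895.SM
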