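import Pool.Agent.R356.Joint
import Pool.Agent.H895.SM.Val

/-!
# Elimination of two numbers over a ring with a length and a filtration
-/

set_option autoImplicit false

namespace Pool.Agent.H895.SM

open Polynomial Finset
open Pool.Agent.R356 Pool.Agent.TH456.TM
open Pool.Agent.TH647.NR (norm_resultant_le)

variable {R : Type*} [CommRing R]

/-- a filtration of a ring -/
structure Filt (F : ℕ → AddSubgroup R) : Prop where
  one : (1 : R) ∈ F 0
  mul : ∀ m n a b, a ∈ F m → b ∈ F n → a * b ∈ F (m + n)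
  mono : ∀ m n, m ≤ n → F m ≤ F n
  ex : ∀ a, ∃ n, a ∈ F n

/-- the filtration of the polynomial ring -/
def polyF (F : ℕ → AddSubgroup R) (n : ℕ) : AddSubgroup R[X] where
  carrier := {P | P.natDegree ≤ n ∧ ∀ j, P.coeff j ∈ F n}
  add_mem' {a b} ha hb := ⟨(natDegree_add_le _ _).trans (max_le ha.1 hb.1), fun j => by
    rw [coeff_add]; exact add_mem (ha.2 j) (hb.2 j)⟩
  zero_mem' := ⟨by simp, fun j => by rw [coeff_zero]; exact zero_mem _⟩
  neg_mem' {a} ha := ⟨by rw [natDegree_neg]; exact ha.1, fun j => by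
    rw [coeff_neg]; exact neg_mem (ha.2 j)⟩

lemma Filt.poly {F : ℕ → AddSubgroup R} (h : Filt F) : Filt (polyF F) where
  one := by
    refine ⟨by simp, fun j => ?_⟩
    rw [coeff_one]
    split_ifs
    · exact h.one
    · exact zero_mem _
  mul m n a b ha hb := by
    refine ⟨natDegree_mul_le.trans (Nat.add_le_add ha.1 hb.1), fun j => ?_⟩
    rw [coeff_mul]
    exact sum_mem fun p _ => h.mul _ _ _ _ (ha.2 _) (hb.2 _)
  mono m n hmn a ha := ⟨ha.1.trans hmn, fun j => h.mono m n hmn (ha.2 j)⟩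
  ex a := by
    choose g hg using fun j => h.ex (a.coeff j)
    refine ⟨a.natDegree + ∑ j ∈ a.support, g j, Nat.le_add_right _ _, fun j => ?_⟩
    by_cases hj : j ∈ a.support
    · refine h.mono (g j) _ ?_ (hg j)
      have := Finset.single_le_sum (f := g) (fun _ _ => Nat.zero_le _) hj
      omega
    · rw [notMem_support_iff.1 hj]
      exact zero_mem _

/-- a length, a filtration and a homomorphism to the complex numbers -/
structure Sz (f : R → ℝ) (F : ℕ → AddSubgroup R) (φ : R →+* ℂ) (T : ℝ) : Prop where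
  len : IsLen f
  filt : Filt F
  one_le : 1 ≤ T
  val : ∀ n a, a ∈ F n → ‖φ a‖ ≤ f a * T ^ n

lemma Sz.mono {f : R → ℝ} {F : ℕ → AddSubgroup R} {φ : R →+* ℂ} {T T' : ℝ} (h : Sz f F φ T) (hT : T ≤ T') :
    Sz f F φ T' where
  len := h.len
  filt := h.filt
  one_le := h.one_le.trans hT
  val n a ha := (h.val n a ha).trans (mul_le_mul_of_nonneg_left
    (pow_le_pow_left₀ (by linarith [h.one_le]) hT n) (h.len.nonneg a))

lemma Sz.poly {f : R → ℝ} {F : ℕ → AddSubgroup R} {φ : R →+* ℂ} {T : ℝ} (h : Sz f F φ T) (u : ℂ) (hu : ‖u‖ ≤ T) :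
    Sz (Pool.Agent.R356.len f) (polyF F) (eval₂RingHom φ u) (T ^ 2) where
  len := h.len.poly
  filt := h.filt.poly
  one_le := one_le_pow₀ h.one_le
  val n a ha := by
    have hT := h.one_le
    rw [coe_eval₂RingHom, eval₂_eq_sum, Polynomial.sum_def]
    refine (norm_sum_le _ _).trans ?_
    unfold Pool.Agent.R356.len
    rw [Finset.sum_mul]
    refine Finset.sum_le_sum fun i hi => ?_
    rw [norm_mul, norm_pow]
    have h1 := h.val n _ (ha.2 i)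
    have h2 : ‖u‖ ^ i ≤ T ^ n := (pow_le_pow_left₀ (norm_nonneg _) hu i).trans
      (pow_le_pow_right₀ hT ((le_natDegree_of_mem_supp i hi).trans ha.1))
    calc ‖φ (a.coeff i)‖ * ‖u‖ ^ i ≤ (f (a.coeff i) * T ^ n) * T ^ n :=
          mul_le_mul h1 h2 (by positivity) (mul_nonneg (h.len.nonneg _) (by positivity))
      _ = f (a.coeff i) * (T ^ 2) ^ n := by rw [← pow_mul, mul_comm 2 n, pow_mul]; ring

lemma len_natCast {f : R → ℝ} (h : IsLen f) (n : ℕ) : f (n : R) ≤ n := by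
  induction n with
  | zero => rw [Nat.cast_zero, h.zero]; simp
  | succ n ih =>
    rw [Nat.cast_succ]
    refine (h.add _ _).trans ?_
    push_cast
    linarith [h.one]

lemma len_intCast {f : R → ℝ} (h : IsLen f) (z : ℤ) : f (z : R) ≤ |(z : ℝ)| := by
  rcases Int.eq_nat_or_neg z with ⟨n, rfl | rfl⟩
  · rw [Int.cast_natCast, Int.cast_natCast, Nat.abs_cast]
    exact len_natCast h n
  · rw [Int.cast_neg, Int.cast_natCast, h.neg, Int.cast_neg, Int.cast_natCast, abs_neg, Nat.abs_cast]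
    exact len_natCast h n

/-- the resultant of an integer polynomial and of a polynomial over `R` -/
noncomputable def NR (Q : ℤ[X]) (G : R[X]) : R :=
  resultant (Q.map (Int.castRingHom R)) G Q.natDegree G.natDegree

lemma NR_mem {F : ℕ → AddSubgroup R} (h : Filt F) (Q : ℤ[X]) (G : R[X]) (E : ℕ) (hG : ∀ i, G.coeff i ∈ F E) :
    NR Q G ∈ F ((Q.natDegree + G.natDegree) * E) := by
  refine det_filt F h.one h.mul _ _ _ fun i j => ?_
  refine sylv_entry (fun a : R => a ∈ F E) (zero_mem _) _ _ _ _ (fun i => ?_) hG i j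
  rw [coeff_map, eq_intCast]
  have h1 : (1 : R) ∈ F E := h.mono 0 E (Nat.zero_le _) h.one
  have h2 := zsmul_mem h1 (Q.coeff i)
  rwa [zsmul_one] at h2

lemma NR_len {f : R → ℝ} (h : IsLen f) (Q : ℤ[X]) (G : R[X]) (A H : ℝ) (hA : 1 ≤ A) (hH : 1 ≤ H)
    (hG : ∀ i, f (G.coeff i) ≤ A) (hQ : ∀ k, |((Q.coeff k : ℤ) : ℝ)| ≤ H) :
    f (NR Q G) ≤ (Q.natDegree + G.natDegree).factorial * (A * H) ^ (Q.natDegree + G.natDegree) := by
  refine h.det _ _ _ fun i j => ?_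
  refine sylv_entry (fun a : R => f a ≤ A * H) ?_ _ _ _ _ (fun i => ?_) (fun i => ?_) i j
  · show f 0 ≤ _
    rw [h.zero]; positivity
  · show f _ ≤ _
    rw [coeff_map, eq_intCast]
    exact (len_intCast h _).trans ((hQ i).trans (by nlinarith))
  · exact (hG i).trans (by nlinarith)

lemma NR_map {S : Type*} [CommRing S] (φ : R →+* S) (Q : ℤ[X]) (G : R[X]) : φ (NR Q G) =
    resultant (Q.map (Int.castRingHom S)) (G.map φ) Q.natDegree G.natDegree := by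
  rw [NR, ← resultant_map_map, Polynomial.map_map]
  congr 2
  exact RingHom.ext_int _ _

lemma NR_ne (φ : R →+* ℂ) (Q : ℤ[X]) (hQ : Q ≠ 0) (G : R[X])
    (h : ∀ β : ℂ, aeval β Q = 0 → (G.map φ).eval β ≠ 0) : φ (NR Q G) ≠ 0 := by
  have hinj : Function.Injective (Int.castRingHom ℂ) := Int.cast_injective
  have hQ' : Q.map (Int.castRingHom ℂ) ≠ 0 := (Polynomial.map_ne_zero_iff hinj).2 hQ
  rw [NR_map]
  intro h1
  have h3 : Q.natDegree = (Q.map (Int.castRingHom ℂ)).natDegree := by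
    rw [natDegree_map_eq_of_injective hinj]
  rw [h3, resultant_eq_prod_eval _ _ _ natDegree_map_le (IsAlgClosed.splits _)] at h1
  rcases mul_eq_zero.1 h1 with h2 | h2
  · exact hQ' (leadingCoeff_eq_zero.1 (eq_zero_of_pow_eq_zero h2))
  · rw [Multiset.prod_eq_zero_iff, Multiset.mem_map] at h2
    obtain ⟨β, hβ, hβ0⟩ := h2
    have h4 : aeval β Q = 0 := by
      rw [mem_roots hQ', IsRoot.def, eval_map] at hβ
      rw [aeval_def]
      exact hβ
    exact h β h4 hβ0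

lemma NR_value (φ : R →+* ℂ) (v : ℂ) (Q : ℤ[X]) (G : R[X]) (A H T ε : ℝ)
    (hA : 1 ≤ A) (hH : 1 ≤ H) (hT : 1 ≤ T) (hv : ‖v‖ ≤ T) (hm : 0 < Q.natDegree)
    (h4 : ∀ i, ‖φ (G.coeff i)‖ ≤ A) (hQ : ∀ k, |((Q.coeff k : ℤ) : ℝ)| ≤ H)
    (h5 : ‖aeval v Q‖ ≤ ε) (h6 : ‖(G.map φ).eval v‖ ≤ ε) :
    ‖φ (NR Q G)‖ ≤ (Q.natDegree + G.natDegree) *
      (T ^ (Q.natDegree + G.natDegree) * ε) *
      ((Q.natDegree + G.natDegree).factorial * (A * H) ^ (Q.natDegree + G.natDegree)) := by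
  rw [NR_map]
  refine norm_resultant_le _ _ _ _ natDegree_map_le natDegree_map_le (by omega) (A * H) T _
    (by nlinarith) (fun i => ?_) (fun i => ?_) v hT hv ?_ h6
  · rw [coeff_map, eq_intCast, Complex.norm_intCast]
    exact (hQ i).trans (by nlinarith)
  · rw [coeff_map]
    exact (h4 i).trans (by nlinarith)
  · rw [eval_map]
    rw [aeval_def] at h5
    exact h5

/-- the uniform version of the bound for the value -/
lemma NR_value' (φ : R →+* ℂ) (v : ℂ) (Q : ℤ[X]) (G : R[X]) (A H T ε : ℝ) (s : ℕ)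
    (hA : 1 ≤ A) (hH : 1 ≤ H) (hT : 1 ≤ T) (hv : ‖v‖ ≤ T) (hm : 0 < Q.natDegree)
    (hs : Q.natDegree + G.natDegree ≤ s)
    (h4 : ∀ i, ‖φ (G.coeff i)‖ ≤ A) (hQ : ∀ k, |((Q.coeff k : ℤ) : ℝ)| ≤ H)
    (h5 : ‖aeval v Q‖ ≤ ε) (h6 : ‖(G.map φ).eval v‖ ≤ ε) :
    ‖φ (NR Q G)‖ ≤ (s + 1) * (T ^ s * ε) * (s.factorial * (A * H) ^ s) := by
  have hε : 0 ≤ ε := (norm_nonneg _).trans h5
  have hAH : 1 ≤ A * H := by nlinarith
  have h1 := NR_value φ v Q G A H T ε hA hH hT hv hm h4 hQ h5 h6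
  obtain ⟨r, hr⟩ : ∃ r, r = Q.natDegree + G.natDegree := ⟨_, rfl⟩
  have hcast : ((Q.natDegree : ℝ) + G.natDegree) = r := by rw [hr]; push_cast; ring
  rw [hcast] at h1
  rw [← hr] at h1 hs
  have hrR : (r : ℝ) ≤ s + 1 := by
    have : (r : ℝ) ≤ s := by exact_mod_cast hs
    linarith
  have hTr : T ^ r ≤ T ^ s := pow_le_pow_right₀ hT hs
  have hfr : ((r.factorial : ℕ) : ℝ) ≤ s.factorial := by exact_mod_cast Nat.factorial_le hs
  have hpow : (A * H) ^ r ≤ (A * H) ^ s := pow_le_pow_right₀ hAH hs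
  refine h1.trans ?_
  gcongr

/-- a measure of algebraic independence -/
def MeasG (f : R → ℝ) (F : ℕ → AddSubgroup R) (φ : R →+* ℂ) : Prop :=
  ∀ D : ℕ, ∃ (κ : ℕ) (c : ℝ), 0 < c ∧ ∀ a : R, a ≠ 0 → a ∈ F D → ∀ A : ℝ, f a ≤ A → c ≤ A ^ κ * ‖φ a‖

/-- a joint transcendence measure -/
def JointC (u v : ℂ) : Prop :=
  ∀ D : ℕ, ∃ (κ : ℕ) (c : ℝ), 0 < c ∧ ∀ P Q : ℤ[X], P ≠ 0 → Q ≠ 0 → P.natDegree ≤ D → Q.natDegree ≤ D →
    ∀ H : ℝ, 1 ≤ H → (∀ k, |((P.coeff k : ℤ) : ℝ)| ≤ H) → (∀ k, |((Q.coeff k : ℤ) : ℝ)| ≤ H) →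
    c ≤ H ^ κ * max ‖aeval u P‖ ‖aeval v Q‖

/-- **Elimination.** -/
theorem elim2 {f : R → ℝ} {F : ℕ → AddSubgroup R} {φ : R →+* ℂ} {T : ℝ} (h : Sz f F φ T) (hm : MeasG f F φ)
    (u v : ℂ) (hu : ‖u‖ ≤ T) (hv : ‖v‖ ≤ T) (G : R[X][X]) (hG : (G.map (eval₂RingHom φ u)).eval v = 0)
    (hgen : ∀ S : Finset (ℂ × ℂ), ∃ ψ : R →+* ℂ, ∀ p ∈ S, (G.map (eval₂RingHom ψ p.1)).eval p.2 ≠ 0) :
    JointC u v := by
  classical
  intro D
  have hT := h.one_le
  -- the constants of `G`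
  obtain ⟨E, A, hA, hE, hAG⟩ : ∃ (E : ℕ) (A : ℝ), 1 ≤ A ∧ (∀ i, G.coeff i ∈ polyF F E) ∧
      ∀ i, Pool.Agent.R356.len f (G.coeff i) ≤ A := by
    choose g hg using fun i => h.filt.poly.ex (G.coeff i)
    obtain ⟨A, hA, hA'⟩ := bdd_of_support' G.support (fun i => Pool.Agent.R356.len f (G.coeff i))
      (fun i hi => by
        show Pool.Agent.R356.len f (G.coeff i) = 0
        rw [notMem_support_iff.1 hi]; exact h.len.poly.zero)
    refine ⟨∑ i ∈ G.support, g i, A, hA, fun i => ?_, hA'⟩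
    by_cases hi : i ∈ G.support
    · exact h.filt.poly.mono _ _ (Finset.single_le_sum (f := g) (fun _ _ => Nat.zero_le _) hi) (hg i)
    · rw [notMem_support_iff.1 hi]
      exact zero_mem _
  obtain ⟨s, hs⟩ : ∃ s, s = D + G.natDegree := ⟨_, rfl⟩
  obtain ⟨s₂, hs₂⟩ : ∃ s₂, s₂ = D + s * E := ⟨_, rfl⟩
  obtain ⟨κ, c, hc, hmeas⟩ := hm (s₂ * (s * E))
  -- constants
  obtain ⟨A', hA'⟩ : ∃ A' : ℝ, A' = A * (T ^ 2) ^ E := ⟨_, rfl⟩
  have hTE : (1 : ℝ) ≤ (T ^ 2) ^ E := one_le_pow₀ (one_le_pow₀ hT)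
  have hA'1 : 1 ≤ A' := by rw [hA']; nlinarith
  obtain ⟨B, hB⟩ : ∃ B : ℝ, B = s.factorial * A ^ s := ⟨_, rfl⟩
  have hfac : ∀ n : ℕ, (1 : ℝ) ≤ n.factorial := fun n => by exact_mod_cast Nat.factorial_pos _
  have hAs : 1 ≤ A ^ s := one_le_pow₀ hA
  have hB1 : 1 ≤ B := by rw [hB]; nlinarith [hfac s]
  obtain ⟨K₁, hK₁⟩ : ∃ K : ℝ, K = (s + 1) * T ^ s * (s.factorial * A' ^ s) := ⟨_, rfl⟩
  have hTs : 1 ≤ T ^ s := one_le_pow₀ hT
  have hsR : (0 : ℝ) ≤ s := by positivity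
  have hK₁1 : 1 ≤ K₁ := by
    rw [hK₁]
    have h1 : 1 ≤ (s + 1 : ℝ) * T ^ s := by nlinarith
    have h2 : 1 ≤ (s.factorial : ℝ) * A' ^ s := by
      have h3 : 1 ≤ A' ^ s := one_le_pow₀ hA'1
      nlinarith [hfac s]
    nlinarith
  obtain ⟨A₂, hA₂⟩ : ∃ A₂ : ℝ, A₂ = B * T ^ (s * E) := ⟨_, rfl⟩
  have hA₂1 : 1 ≤ A₂ := by
    rw [hA₂]
    have : (1 : ℝ) ≤ T ^ (s * E) := one_le_pow₀ hT
    nlinarith
  obtain ⟨C₁, hC₁⟩ : ∃ C₁ : ℝ, C₁ = (s₂.factorial * B ^ s₂) ^ κ := ⟨_, rfl⟩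
  obtain ⟨C₂, hC₂⟩ : ∃ C₂ : ℝ, C₂ = (s₂ + 1) * (T ^ s₂ * K₁) * (s₂.factorial * A₂ ^ s₂) := ⟨_, rfl⟩
  have hC₁0 : 0 < C₁ := by
    rw [hC₁]
    have : 0 < B := by linarith
    positivity
  have hC₂0 : 0 < C₂ := by
    rw [hC₂]
    have : 0 < K₁ := by linarith
    have : 0 < A₂ := by linarith
    have : 0 < T := by linarith
    positivity
  obtain ⟨e, he⟩ : ∃ e : ℕ, e = (s + 1) * s₂ * κ + (s + (s + 1) * s₂) := ⟨_, rfl⟩
  refine ⟨e, min 1 (c / (C₁ * C₂)), lt_min one_pos (by positivity), ?_⟩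
  intro P Q hP hQ hPD hQD H hH hPH hQH
  have hH0 : 0 < H := by linarith
  have hconst : ∀ (R : ℤ[X]) (t : ℂ), R ≠ 0 → R.natDegree = 0 → (1 : ℝ) ≤ ‖aeval t R‖ := by
    intro R t hR hR0
    have h1 : R = C (R.coeff 0) := eq_C_of_natDegree_eq_zero hR0
    have h2 : R.coeff 0 ≠ 0 := fun h => hR (by rw [h1, h, C_0])
    rw [h1, aeval_C, eq_intCast, Complex.norm_intCast, ← Int.cast_abs]
    exact_mod_cast Int.one_le_abs h2
  have htriv : ∀ y : ℝ, 1 ≤ y → min 1 (c / (C₁ * C₂)) ≤ H ^ e * y := by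
    intro y hy
    refine (min_le_left _ _).trans ?_
    have : 1 ≤ H ^ e := one_le_pow₀ hH
    nlinarith
  by_cases hP0 : P.natDegree = 0
  · exact htriv _ ((hconst P u hP hP0).trans (le_max_left _ _))
  by_cases hQ0 : Q.natDegree = 0
  · exact htriv _ ((hconst Q v hQ hQ0).trans (le_max_right _ _))
  obtain ⟨ε, hε⟩ : ∃ ε : ℝ, ε = max ‖aeval u P‖ ‖aeval v Q‖ := ⟨_, rfl⟩
  rw [← hε]
  have hε1 : ‖aeval u P‖ ≤ ε := by rw [hε]; exact le_max_left _ _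
  have hε2 : ‖aeval v Q‖ ≤ ε := by rw [hε]; exact le_max_right _ _
  have hε0 : 0 ≤ ε := (norm_nonneg _).trans hε1
  have h' := h.poly u hu
  -- first step
  obtain ⟨N₁, hN₁⟩ : ∃ N₁ : R[X], N₁ = NR Q G := ⟨_, rfl⟩
  have hr₁ : Q.natDegree + G.natDegree ≤ s := by omega
  have hmem₁ : N₁ ∈ polyF F (s * E) := by
    rw [hN₁]
    exact h.filt.poly.mono _ _ (Nat.mul_le_mul_right _ hr₁) (NR_mem h.filt.poly Q G E hE)
  have hAH : 1 ≤ A * H := by nlinarith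
  have hlen₁ : Pool.Agent.R356.len f N₁ ≤ B * H ^ s := by
    rw [hN₁]
    refine (NR_len h.len.poly Q G A H hA hH hAG hQH).trans ?_
    have h1 : (((Q.natDegree + G.natDegree).factorial : ℕ) : ℝ) ≤ s.factorial := by
      exact_mod_cast Nat.factorial_le hr₁
    have h2 : (A * H) ^ (Q.natDegree + G.natDegree) ≤ (A * H) ^ s := pow_le_pow_right₀ hAH hr₁
    calc (((Q.natDegree + G.natDegree).factorial : ℕ) : ℝ) * (A * H) ^ (Q.natDegree + G.natDegree)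
        ≤ s.factorial * (A * H) ^ s := mul_le_mul h1 h2 (by positivity) (by positivity)
      _ = B * H ^ s := by rw [hB, mul_pow]; ring
  have hval₁ : ‖(N₁.map φ).eval u‖ ≤ K₁ * H ^ s * ε := by
    have h1 : (N₁.map φ).eval u = (eval₂RingHom φ u) N₁ := by
      rw [eval_map]; rfl
    rw [h1, hN₁]
    refine (NR_value' (eval₂RingHom φ u) v Q G A' H T ε s hA'1 hH hT hv (by omega) hr₁ (fun i => ?_) hQH hε2 ?_).trans
      (le_of_eq ?_)
    · refine (h'.val E _ (hE i)).trans ?_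
      rw [hA']
      exact mul_le_mul_of_nonneg_right (hAG i) (by positivity)
    · rw [hG, norm_zero]; exact hε0
    · rw [hK₁, mul_pow A' H]; ring
  -- second step
  obtain ⟨N₂, hN₂⟩ : ∃ N₂ : R, N₂ = NR P N₁ := ⟨_, rfl⟩
  have hr₂ : P.natDegree + N₁.natDegree ≤ s₂ := by
    have := hmem₁.1
    omega
  have hmem₂ : N₂ ∈ F (s₂ * (s * E)) := by
    rw [hN₂]
    exact h.filt.mono _ _ (Nat.mul_le_mul_right _ hr₂) (NR_mem h.filt P N₁ (s * E) hmem₁.2)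
  have hHs : 1 ≤ H ^ s := one_le_pow₀ hH
  have hBH : 1 ≤ B * H ^ s := by nlinarith
  have hBHH : 1 ≤ B * H ^ s * H := by nlinarith
  have hlen₂ : f N₂ ≤ s₂.factorial * B ^ s₂ * H ^ ((s + 1) * s₂) := by
    rw [hN₂]
    refine (NR_len h.len P N₁ (B * H ^ s) H hBH hH (fun i => (le_len h.len N₁ i).trans hlen₁) hPH).trans ?_
    have h1 : (((P.natDegree + N₁.natDegree).factorial : ℕ) : ℝ) ≤ s₂.factorial := by
      exact_mod_cast Nat.factorial_le hr₂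
    have h2 : (B * H ^ s * H) ^ (P.natDegree + N₁.natDegree) ≤ (B * H ^ s * H) ^ s₂ := pow_le_pow_right₀ hBHH hr₂
    calc (((P.natDegree + N₁.natDegree).factorial : ℕ) : ℝ) * (B * H ^ s * H) ^ (P.natDegree + N₁.natDegree)
        ≤ s₂.factorial * (B * H ^ s * H) ^ s₂ := mul_le_mul h1 h2 (by positivity) (by positivity)
      _ = _ := by
        rw [mul_assoc B, ← pow_succ, mul_pow, ← pow_mul]; ring
  have hval₂ : ‖φ N₂‖ ≤ C₂ * H ^ (s + (s + 1) * s₂) * ε := by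
    have hA₂H : 1 ≤ A₂ * H ^ s := by nlinarith
    have h0 : ε ≤ K₁ * H ^ s * ε := by
      have : 1 ≤ K₁ * H ^ s := by nlinarith
      nlinarith
    rw [hN₂]
    refine (NR_value' φ u P N₁ (A₂ * H ^ s) H T (K₁ * H ^ s * ε) s₂ hA₂H hH hT hu (by omega) hr₂ (fun i => ?_) hPH
      (hε1.trans h0) hval₁).trans (le_of_eq ?_)
    · refine (h.val _ _ (hmem₁.2 i)).trans ?_
      calc f (N₁.coeff i) * T ^ (s * E) ≤ (B * H ^ s) * T ^ (s * E) :=
            mul_le_mul_of_nonneg_right ((le_len h.len N₁ i).trans hlen₁) (by positivity)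
        _ = A₂ * H ^ s := by rw [hA₂]; ring
    · rw [hC₂, mul_assoc A₂, ← pow_succ, mul_pow A₂, ← pow_mul, pow_add]
      ring
  -- nonvanishing
  have hne₂ : N₂ ≠ 0 := by
    have hinj : Function.Injective (Int.castRingHom ℂ) := Int.cast_injective
    obtain ⟨ψ, hψ⟩ := hgen ((P.map (Int.castRingHom ℂ)).roots.toFinset ×ˢ (Q.map (Int.castRingHom ℂ)).roots.toFinset)
    have hroot : ∀ (R : ℤ[X]) (α : ℂ), R ≠ 0 → aeval α R = 0 → α ∈ (R.map (Int.castRingHom ℂ)).roots.toFinset := by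
      intro R α hR hα
      rw [Multiset.mem_toFinset, mem_roots ((Polynomial.map_ne_zero_iff hinj).2 hR), IsRoot.def, eval_map]
      rw [aeval_def] at hα
      exact hα
    intro h0
    have h1 : ψ N₂ ≠ 0 := by
      rw [hN₂]
      refine NR_ne ψ P hP N₁ fun α hα => ?_
      have h1 : (N₁.map ψ).eval α = (eval₂RingHom ψ α) N₁ := by
        rw [eval_map]; rfl
      rw [h1, hN₁]
      refine NR_ne (eval₂RingHom ψ α) Q hQ G fun β hβ => ?_
      exact hψ (α, β) (Finset.mem_product.2 ⟨hroot P α hP hα, hroot Q β hQ hβ⟩)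
    rw [h0, map_zero] at h1
    exact h1 rfl
  have hfin := hmeas N₂ hne₂ hmem₂ _ hlen₂
  refine (min_le_right _ _).trans ?_
  rw [div_le_iff₀ (by positivity)]
  calc c ≤ (s₂.factorial * B ^ s₂ * H ^ ((s + 1) * s₂)) ^ κ * ‖φ N₂‖ := hfin
    _ ≤ (s₂.factorial * B ^ s₂ * H ^ ((s + 1) * s₂)) ^ κ * (C₂ * H ^ (s + (s + 1) * s₂) * ε) := by
      refine mul_le_mul_of_nonneg_left hval₂ ?_
      have : 0 ≤ B := by linarith
      positivity
    _ = H ^ e * ε * (C₁ * C₂) := by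
      rw [hC₁, he, mul_pow, ← pow_mul, pow_add]
      ring

end Pool.Agent.H895.SM
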