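import Pool.Agent.H895.SM.Pair

/-!
# Elimination of several numbers
-/

set_option autoImplicit false

namespace Pool.Agent.H895.SM

open Polynomial Finset
open Pool.Agent.R356 Pool.Agent.TH456.TM Pool.Agent.R473.JC

/-- **One step of the elimination** -/
lemma step {R : Type*} [CommRing R] {f : R → ℝ} {F : ℕ → AddSubgroup R} {φ : R →+* ℂ} {T : ℝ} (h : Sz f F φ T)
    (u : ℂ) (hu : ‖u‖ ≤ T) (D E : ℕ) (B : ℝ) (hB : 1 ≤ B) (a : ℕ) (K : ℝ) (hK : 1 ≤ K) (k : ℕ) :
    ∃ (E' : ℕ) (B' : ℝ) (a' : ℕ) (K' : ℝ) (k' : ℕ), 1 ≤ B' ∧ 1 ≤ K' ∧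
      ∀ P : ℤ[X], 0 < P.natDegree → P.natDegree ≤ D → ∀ H : ℝ, 1 ≤ H → (∀ k, |((P.coeff k : ℤ) : ℝ)| ≤ H) →
      ∀ ε : ℝ, ‖aeval u P‖ ≤ ε → ∀ N : R[X], N ∈ polyF F E → Pool.Agent.R356.len f N ≤ B * H ^ a →
      ‖eval₂RingHom φ u N‖ ≤ K * H ^ k * ε →
      NR P N ∈ F E' ∧ f (NR P N) ≤ B' * H ^ a' ∧ ‖φ (NR P N)‖ ≤ K' * H ^ k' * ε := by
  have hT := h.one_le
  obtain ⟨s, hs⟩ : ∃ s, s = D + E := ⟨_, rfl⟩
  obtain ⟨A₂, hA₂⟩ : ∃ A₂ : ℝ, A₂ = B * T ^ E := ⟨_, rfl⟩
  have hA₂1 : 1 ≤ A₂ := by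
    rw [hA₂]
    have : (1 : ℝ) ≤ T ^ E := one_le_pow₀ hT
    nlinarith
  have hfac : (1 : ℝ) ≤ s.factorial := by exact_mod_cast Nat.factorial_pos _
  have hsR : (0 : ℝ) ≤ s := Nat.cast_nonneg _
  refine ⟨s * E, s.factorial * B ^ s, (a + 1) * s, (s + 1) * (T ^ s * K) * (s.factorial * A₂ ^ s), k + (a + 1) * s,
    ?_, ?_, ?_⟩
  · have : 1 ≤ B ^ s := one_le_pow₀ hB
    nlinarith
  · have h1 : 1 ≤ T ^ s := one_le_pow₀ hT
    have h2 : 1 ≤ T ^ s * K := by nlinarith
    have h3 : 1 ≤ (s + 1 : ℝ) * (T ^ s * K) := by nlinarith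
    have h4 : 1 ≤ A₂ ^ s := one_le_pow₀ hA₂1
    have h5 : 1 ≤ (s.factorial : ℝ) * A₂ ^ s := by nlinarith
    nlinarith
  intro P hP0 hPD H hH hPH ε hε N hmem hlen hval
  have hH0 : 0 < H := by linarith
  have hε0 : 0 ≤ ε := (norm_nonneg _).trans hε
  have hr : P.natDegree + N.natDegree ≤ s := by
    have := hmem.1
    omega
  have hHa : 1 ≤ H ^ a := one_le_pow₀ hH
  have hBH : 1 ≤ B * H ^ a := by nlinarith
  have hBHH : 1 ≤ B * H ^ a * H := by nlinarith
  refine ⟨h.filt.mono _ _ (Nat.mul_le_mul_right _ hr) (NR_mem h.filt P N E hmem.2), ?_, ?_⟩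
  · refine (NR_len h.len P N (B * H ^ a) H hBH hH (fun i => (le_len h.len N i).trans hlen) hPH).trans ?_
    have h1 : (((P.natDegree + N.natDegree).factorial : ℕ) : ℝ) ≤ s.factorial := by
      exact_mod_cast Nat.factorial_le hr
    have h2 : (B * H ^ a * H) ^ (P.natDegree + N.natDegree) ≤ (B * H ^ a * H) ^ s := pow_le_pow_right₀ hBHH hr
    calc (((P.natDegree + N.natDegree).factorial : ℕ) : ℝ) * (B * H ^ a * H) ^ (P.natDegree + N.natDegree)
        ≤ s.factorial * (B * H ^ a * H) ^ s := mul_le_mul h1 h2 (by positivity) (by positivity)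
      _ = _ := by
        rw [mul_assoc B, ← pow_succ, mul_pow, ← pow_mul]; ring
  · have hA₂H : 1 ≤ A₂ * H ^ a := by nlinarith
    have hHk : 1 ≤ H ^ k := one_le_pow₀ hH
    have h0 : ε ≤ K * H ^ k * ε := by
      have : 1 ≤ K * H ^ k := by nlinarith
      nlinarith
    refine (NR_value' φ u P N (A₂ * H ^ a) H T (K * H ^ k * ε) s hA₂H hH hT hu hP0 hr (fun i => ?_) hPH
      (hε.trans h0) ?_).trans (le_of_eq ?_)
    · refine (h.val _ _ (hmem.2 i)).trans ?_
      calc f (N.coeff i) * T ^ E ≤ (B * H ^ a) * T ^ E :=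
            mul_le_mul_of_nonneg_right ((le_len h.len N i).trans hlen) (by positivity)
        _ = A₂ * H ^ a := by rw [hA₂]; ring
    · rw [eval_map]
      exact hval
    · rw [mul_assoc A₂, ← pow_succ, mul_pow A₂, ← pow_mul, pow_add]
      ring

/-- a ring with a length, a filtration and a homomorphism to the complex numbers -/
structure Dat where
  R : Type
  [inst : CommRing R]
  f : R → ℝ
  F : ℕ → AddSubgroup R
  φ : R →+* ℂ

attribute [instance] Dat.inst

/-- the polynomial ring -/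
noncomputable def Dat.poly (D : Dat) (u : ℂ) : Dat where
  R := D.R[X]
  f := Pool.Agent.R356.len D.f
  F := polyF D.F
  φ := eval₂RingHom D.φ u

/-- the polynomial ring in several variables -/
noncomputable def Dat.ext : Dat → List ℂ → Dat
  | D, [] => D
  | D, u :: us => (D.poly u).ext us

/-- the embedding of the ring -/
noncomputable def Dat.emb : (D : Dat) → (us : List ℂ) → D.R →+* (D.ext us).R
  | D, [] => RingHom.id D.R
  | D, u :: us => (Dat.emb (D.poly u) us).comp (C : D.R →+* D.R[X])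

/-- the variables -/
noncomputable def Dat.var : (D : Dat) → (us : List ℂ) → ℕ → (D.ext us).R
  | D, [], _ => (0 : D.R)
  | D, u :: us, 0 => Dat.emb (D.poly u) us (X : D.R[X])
  | D, u :: us, k + 1 => Dat.var (D.poly u) us k

/-- the substitution of complex numbers for the variables -/
noncomputable def Dat.hom : (D : Dat) → (us : List ℂ) → (D.R →+* ℂ) → (ℕ → ℂ) → ((D.ext us).R →+* ℂ)
  | _, [], ψ, _ => ψ
  | D, u :: us, ψ, α => Dat.hom (D.poly u) us (eval₂RingHom ψ (α 0)) (fun i => α (i + 1))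

/-- the elimination of all variables -/
noncomputable def Dat.elim : (D : Dat) → (us : List ℂ) → (ℕ → ℤ[X]) → (D.ext us).R → D.R
  | _, [], _, N => N
  | D, u :: us, P, N => NR (P 0) (Dat.elim (D.poly u) us (fun i => P (i + 1)) N : D.R[X])

lemma Dat.hom_emb (us : List ℂ) : ∀ (D : Dat) (ψ : D.R →+* ℂ) (α : ℕ → ℂ) (a : D.R),
    D.hom us ψ α (D.emb us a) = ψ a := by
  induction us with
  | nil => intro D ψ α a; rfl
  | cons u us ih =>
    intro D ψ α a
    show (D.poly u).hom us (eval₂RingHom ψ (α 0)) (fun i => α (i + 1)) ((D.poly u).emb us (C a)) = ψ a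
    rw [ih]
    show eval₂ ψ (α 0) (C a) = ψ a
    rw [eval₂_C]

lemma Dat.hom_var (us : List ℂ) : ∀ (D : Dat) (ψ : D.R →+* ℂ) (α : ℕ → ℂ) (k : ℕ), k < us.length →
    D.hom us ψ α (D.var us k) = α k := by
  induction us with
  | nil => intro D ψ α k hk; simp at hk
  | cons u us ih =>
    intro D ψ α k hk
    cases k with
    | zero =>
      show (D.poly u).hom us (eval₂RingHom ψ (α 0)) (fun i => α (i + 1)) ((D.poly u).emb us X) = α 0
      rw [Dat.hom_emb]
      show eval₂ ψ (α 0) X = α 0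
      rw [eval₂_X]
    | succ k =>
      show (D.poly u).hom us (eval₂RingHom ψ (α 0)) (fun i => α (i + 1)) ((D.poly u).var us k) = α (k + 1)
      rw [ih]
      simpa using hk

/-- the homomorphism of the extension -/
lemma Dat.phi_eq (us : List ℂ) : ∀ (D : Dat), (D.ext us).φ = D.hom us D.φ (fun i => us.getD i 0) := by
  induction us with
  | nil => intro D; rfl
  | cons u us ih =>
    intro D
    show ((D.poly u).ext us).φ = _
    rw [ih (D.poly u)]
    rfl

lemma Dat.sz (us : List ℂ) : ∀ (D : Dat) (T : ℝ), Sz D.f D.F D.φ T → (∀ u ∈ us, ‖u‖ ≤ T) →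
    ∃ T', Sz (D.ext us).f (D.ext us).F (D.ext us).φ T' := by
  induction us with
  | nil => intro D T h _; exact ⟨T, h⟩
  | cons u us ih =>
    intro D T h hu
    have hT := h.one_le
    exact ih (D.poly u) (T ^ 2) (h.poly u (hu u (by simp))) fun v hv =>
      (hu v (by simp [hv])).trans (by nlinarith)

/-- **The elimination of all variables: bounds** -/
lemma Dat.elim_bound (us : List ℂ) : ∀ (D : Dat) (T : ℝ), Sz D.f D.F D.φ T → (∀ u ∈ us, ‖u‖ ≤ T) →
    ∀ (m E : ℕ) (B : ℝ), 1 ≤ B → ∀ (a : ℕ) (K : ℝ), 1 ≤ K → ∀ k : ℕ,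
    ∃ (E' : ℕ) (B' : ℝ) (a' : ℕ) (K' : ℝ) (k' : ℕ), 1 ≤ B' ∧ 1 ≤ K' ∧
      ∀ P : ℕ → ℤ[X], (∀ i < us.length, 0 < (P i).natDegree ∧ (P i).natDegree ≤ m) → ∀ H : ℝ, 1 ≤ H →
      (∀ i < us.length, ∀ k, |(((P i).coeff k : ℤ) : ℝ)| ≤ H) →
      ∀ ε : ℝ, (∀ i < us.length, ‖aeval (us.getD i 0) (P i)‖ ≤ ε) →
      ∀ N : (D.ext us).R, N ∈ (D.ext us).F E → (D.ext us).f N ≤ B * H ^ a →
      ‖(D.ext us).φ N‖ ≤ K * H ^ k * ε →
      D.elim us P N ∈ D.F E' ∧ D.f (D.elim us P N) ≤ B' * H ^ a' ∧ ‖D.φ (D.elim us P N)‖ ≤ K' * H ^ k' * ε := by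
  induction us with
  | nil =>
    intro D T h _ m E B hB a K hK k
    exact ⟨E, B, a, K, k, hB, hK, fun P _ H _ _ ε _ N h1 h2 h3 => ⟨h1, h2, h3⟩⟩
  | cons u us ih =>
    intro D T h hu m E B hB a K hK k
    have hT := h.one_le
    obtain ⟨E₁, B₁, a₁, K₁, k₁, hB₁, hK₁, h₁⟩ := ih (D.poly u) (T ^ 2) (h.poly u (hu u (by simp)))
      (fun v hv => (hu v (by simp [hv])).trans (by nlinarith)) m E B hB a K hK k
    obtain ⟨E₂, B₂, a₂, K₂, k₂, hB₂, hK₂, h₂⟩ := step h u (hu u (by simp)) m E₁ B₁ hB₁ a₁ K₁ hK₁ k₁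
    refine ⟨E₂, B₂, a₂, K₂, k₂, hB₂, hK₂, fun P hP H hH hPH ε hε N hN1 hN2 hN3 => ?_⟩
    obtain ⟨c1, c2, c3⟩ := h₁ (fun i => P (i + 1)) (fun i hi => hP (i + 1) (by simpa using hi)) H hH
      (fun i hi => hPH (i + 1) (by simpa using hi)) ε (fun i hi => hε (i + 1) (by simpa using hi)) N hN1 hN2 hN3
    exact h₂ (P 0) (hP 0 (by simp)).1 (hP 0 (by simp)).2 H hH (hPH 0 (by simp)) ε (hε 0 (by simp)) _ c1 c2 c3

/-- **The elimination of all variables: nonvanishing** -/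
lemma Dat.elim_ne (us : List ℂ) : ∀ (D : Dat) (ψ : D.R →+* ℂ) (P : ℕ → ℤ[X]), (∀ i < us.length, P i ≠ 0) →
    ∀ N : (D.ext us).R, (∀ α : ℕ → ℂ, (∀ i < us.length, aeval (α i) (P i) = 0) → D.hom us ψ α N ≠ 0) →
    ψ (D.elim us P N) ≠ 0 := by
  induction us with
  | nil => intro D ψ P _ N h; exact h (fun _ => 0) (fun i hi => by simp at hi)
  | cons u us ih =>
    intro D ψ P hP N h
    refine NR_ne ψ (P 0) (hP 0 (by simp)) _ fun β hβ => ?_
    rw [eval_map]
    refine ih (D.poly u) (eval₂RingHom ψ β) (fun i => P (i + 1)) (fun i hi => hP (i + 1) (by simpa using hi)) N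
      fun α hα => ?_
    have h1 := h (fun i => match i with | 0 => β | i + 1 => α i) (fun i hi => by
      cases i with
      | zero => exact hβ
      | succ i => exact hα i (by simpa using hi))
    exact h1

/-- a joint transcendence measure of finitely many numbers -/
def JointN {n : ℕ} (u : Fin n → ℝ) : Prop :=
  ∀ D : ℕ, ∃ (κ : ℕ) (c : ℝ), 0 < c ∧ ∀ P : Fin n → ℤ[X], (∀ i, P i ≠ 0) → (∀ i, (P i).natDegree ≤ D) →
    ∀ H : ℝ, 1 ≤ H → (∀ i k, |(((P i).coeff k : ℤ) : ℝ)| ≤ H) → ∀ ε : ℝ, (∀ i, |aeval (u i) (P i)| ≤ ε) →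
    c ≤ H ^ κ * ε

/-- **Several numbers with a relation over the ring generated by numbers with a measure of algebraic
independence** -/
theorem joint_of_rel {ι : Type} [Finite ι] (x : ι → ℝ) (hx : MeasA x) {n : ℕ} (hn : 0 < n) (u : Fin n → ℝ)
    (G : MvPolynomial (ι ⊕ Fin n) ℤ) (hG : MvPolynomial.aeval (Sum.elim x u) G = 0)
    (hne : ∀ α : Fin n → ℂ, ∃ z : ι → ℂ, MvPolynomial.aeval (Sum.elim z α) G ≠ 0) : JointN u := by
  classical
  haveI := Fintype.ofFinite ι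
  intro m
  obtain ⟨T, hT⟩ : ∃ T : ℝ, T = 1 + (∑ i, |u i| + ∑ i, |x i|) := ⟨_, rfl⟩
  have hs1 : 0 ≤ ∑ i, |u i| := Finset.sum_nonneg fun _ _ => abs_nonneg _
  have hs2 : 0 ≤ ∑ i, |x i| := Finset.sum_nonneg fun _ _ => abs_nonneg _
  have hT1 : 1 ≤ T := by rw [hT]; linarith
  have hxT : ∀ i, |x i| ≤ T := fun i => by
    have := Finset.single_le_sum (f := fun i => |x i|) (fun _ _ => abs_nonneg _) (Finset.mem_univ i)
    rw [hT]; linarith
  have huT : ∀ i, |u i| ≤ T := fun i => by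
    have := Finset.single_le_sum (f := fun i => |u i|) (fun _ _ => abs_nonneg _) (Finset.mem_univ i)
    rw [hT]; linarith
  let D : Dat := { R := MvPolynomial ι ℤ, f := lenM, F := totF ι, φ := evM x }
  let us : List ℂ := List.ofFn fun i => ((u i : ℝ) : ℂ)
  have hlen : us.length = n := List.length_ofFn
  have hget : ∀ i : Fin n, us.getD i 0 = ((u i : ℝ) : ℂ) := by
    intro i
    rw [List.getD_eq_getElem _ _ (by rw [hlen]; exact i.2)]
    simp [us]
  have hsz : Sz D.f D.F D.φ T := sz_tot x T hT1 hxT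
  have hus : ∀ v ∈ us, ‖v‖ ≤ T := by
    intro v hv
    obtain ⟨i, rfl⟩ := List.mem_ofFn.1 hv
    rw [Complex.norm_real, Real.norm_eq_abs]
    exact huT i
  -- the element of the extension
  let Θ : MvPolynomial (ι ⊕ Fin n) ℤ →+* (D.ext us).R := MvPolynomial.eval₂Hom (Int.castRingHom _)
    (Sum.elim (fun i => D.emb us (MvPolynomial.X i)) (fun k => D.var us k))
  have hΘ : ∀ (ψ : D.R →+* ℂ) (α : ℕ → ℂ) (G : MvPolynomial (ι ⊕ Fin n) ℤ), D.hom us ψ α (Θ G) =
      MvPolynomial.aeval (Sum.elim (fun i => ψ (MvPolynomial.X i : MvPolynomial ι ℤ)) (fun k : Fin n => α k)) G := by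
    intro ψ α G
    have h1 : (D.hom us ψ α).comp Θ = (MvPolynomial.aeval
        (Sum.elim (fun i => ψ (MvPolynomial.X i : MvPolynomial ι ℤ)) (fun k : Fin n => α k)) :
        MvPolynomial (ι ⊕ Fin n) ℤ →ₐ[ℤ] ℂ).toRingHom := by
      refine MvPolynomial.ringHom_ext (fun r => ?_) fun i => ?_
      · simp
      · rcases i with i | k
        · simp [Θ, Dat.hom_emb]
        · simp only [RingHom.coe_comp, Function.comp_apply, MvPolynomial.coe_eval₂Hom, MvPolynomial.eval₂_X,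
            Sum.elim_inr, Θ, AlgHom.toRingHom_eq_coe, RingHom.coe_coe, MvPolynomial.aeval_X]
          exact Dat.hom_var us D ψ α k (by rw [hlen]; exact k.2)
    have := congrArg (fun g : MvPolynomial (ι ⊕ Fin n) ℤ →+* ℂ => g G) h1
    exact this
  obtain ⟨T', hszE⟩ := Dat.sz us D T hsz hus
  obtain ⟨E, hE⟩ := hszE.filt.ex (Θ G)
  have hφ0 : (D.ext us).φ (Θ G) = 0 := by
    rw [Dat.phi_eq, hΘ]
    have h1 : (fun k : Fin n => us.getD (k : ℕ) 0) = fun k => ((u k : ℝ) : ℂ) := by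
      funext k; exact hget k
    have h2 : (fun i => D.φ (MvPolynomial.X i : MvPolynomial ι ℤ)) = fun i => ((x i : ℝ) : ℂ) := by
      funext i
      show evM x (MvPolynomial.X i) = _
      rw [evM_apply, MvPolynomial.aeval_X]
    have h3 : MvPolynomial.aeval (Sum.elim (fun i => ((x i : ℝ) : ℂ)) (fun k => ((u k : ℝ) : ℂ))) G =
        ((MvPolynomial.aeval (Sum.elim x u) G : ℝ) : ℂ) := by
      have h4 : (MvPolynomial.aeval (Sum.elim (fun i => ((x i : ℝ) : ℂ)) (fun k => ((u k : ℝ) : ℂ))) :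
          MvPolynomial (ι ⊕ Fin n) ℤ →ₐ[ℤ] ℂ).toRingHom = Complex.ofRealHom.comp
          (MvPolynomial.aeval (Sum.elim x u) : MvPolynomial (ι ⊕ Fin n) ℤ →ₐ[ℤ] ℝ).toRingHom := by
        refine MvPolynomial.ringHom_ext (fun r => by simp) fun i => ?_
        rcases i with i | k
        · simp
        · simp
      exact congrArg (fun g : MvPolynomial (ι ⊕ Fin n) ℤ →+* ℂ => g G) h4
    rw [h1, h2, h3, hG]
    simp
  obtain ⟨E', B', a', K', k', hB', hK', hbd⟩ := Dat.elim_bound us D T hsz hus m E (max 1 ((D.ext us).f (Θ G)))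
    (le_max_left _ _) 0 1 le_rfl 0
  obtain ⟨κ, c, hc, hmeas⟩ := hx.toG E'
  refine ⟨a' * κ + k', min 1 (c / (B' ^ κ * K')), lt_min one_pos (by positivity), ?_⟩
  intro P hP hPD H hH hPH ε hε
  have hH0 : 0 < H := by linarith
  -- constants
  have hconst : ∀ (R : ℤ[X]) (t : ℝ), R ≠ 0 → R.natDegree = 0 → (1 : ℝ) ≤ |aeval t R| := by
    intro R t hR hR0
    have h1 : R = C (R.coeff 0) := eq_C_of_natDegree_eq_zero hR0
    have h2 : R.coeff 0 ≠ 0 := fun h => hR (by rw [h1, h, C_0])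
    rw [h1, aeval_C, eq_intCast, ← Int.cast_abs]
    exact_mod_cast Int.one_le_abs h2
  by_cases hdeg : ∃ i, (P i).natDegree = 0
  · obtain ⟨i, hi⟩ := hdeg
    refine (min_le_left _ _).trans ?_
    have h1 := (hconst (P i) (u i) (hP i) hi).trans (hε i)
    have h2 : 1 ≤ H ^ (a' * κ + k') := one_le_pow₀ hH
    nlinarith
  push Not at hdeg
  obtain ⟨P', hP'⟩ : ∃ P' : ℕ → ℤ[X], P' = fun i => if h : i < n then P ⟨i, h⟩ else 1 := ⟨_, rfl⟩
  have hP'i : ∀ i : Fin n, P' i = P i := by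
    intro i
    rw [hP']
    simp
  have hP'' : ∀ i < us.length, ∃ j : Fin n, (j : ℕ) = i ∧ P' i = P j := by
    intro i hi
    rw [hlen] at hi
    exact ⟨⟨i, hi⟩, rfl, hP'i ⟨i, hi⟩⟩
  have hb := hbd P' (fun i hi => by
      obtain ⟨j, hj, h1⟩ := hP'' i hi
      rw [h1]
      exact ⟨Nat.pos_of_ne_zero (hdeg j), hPD j⟩) H hH (fun i hi k => by
      obtain ⟨j, hj, h1⟩ := hP'' i hi
      rw [h1]
      exact hPH j k) ε (fun i hi => by
      obtain ⟨j, hj, h1⟩ := hP'' i hi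
      rw [h1, ← hj, hget j, ← abs_aeval]
      exact hε j) (Θ G) hE (by rw [pow_zero, mul_one]; exact le_max_right _ _) (by
      rw [hφ0, norm_zero]
      have : 0 ≤ ε := (abs_nonneg _).trans (hε ⟨0, hn⟩)
      positivity)
  obtain ⟨c1, c2, c3⟩ := hb
  have hne' : D.elim us P' (Θ G) ≠ 0 := by
    -- the tuples of roots
    have hinj : Function.Injective (Int.castRingHom ℂ) := Int.cast_injective
    let S : Finset (Fin n → ℂ) := Fintype.piFinset fun i => ((P i).map (Int.castRingHom ℂ)).roots.toFinset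
    have hroot : ∀ (R : ℤ[X]) (α : ℂ), R ≠ 0 → aeval α R = 0 → α ∈ (R.map (Int.castRingHom ℂ)).roots.toFinset := by
      intro R α hR hα
      rw [Multiset.mem_toFinset, mem_roots ((Polynomial.map_ne_zero_iff hinj).2 hR), IsRoot.def, eval_map]
      rw [aeval_def] at hα
      exact hα
    -- the polynomials in the variables of `ι`
    have hsub : ∀ (α : Fin n → ℂ), ∃ p : MvPolynomial ι ℂ, ∀ z : ι → ℂ,
        MvPolynomial.eval z p = MvPolynomial.aeval (Sum.elim z α) G := by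
      intro α
      refine ⟨MvPolynomial.aeval (Sum.elim (fun i => (MvPolynomial.X i : MvPolynomial ι ℂ))
        (fun k => MvPolynomial.C (α k))) G, fun z => ?_⟩
      have h4 : (MvPolynomial.eval z).comp (MvPolynomial.aeval (Sum.elim (fun i => (MvPolynomial.X i : MvPolynomial ι ℂ))
        (fun k => MvPolynomial.C (α k))) : MvPolynomial (ι ⊕ Fin n) ℤ →ₐ[ℤ] MvPolynomial ι ℂ).toRingHom =
          (MvPolynomial.aeval (Sum.elim z α) : MvPolynomial (ι ⊕ Fin n) ℤ →ₐ[ℤ] ℂ).toRingHom := by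
        refine MvPolynomial.ringHom_ext (fun r => by simp) fun i => ?_
        rcases i with i | k
        · simp
        · simp
      exact congrArg (fun g : MvPolynomial (ι ⊕ Fin n) ℤ →+* ℂ => g G) h4
    choose p hp using hsub
    have hprod : ∏ α ∈ S, p α ≠ 0 := by
      refine Finset.prod_ne_zero_iff.2 fun α _ h0 => ?_
      obtain ⟨z, hz⟩ := hne α
      rw [← hp, h0, map_zero] at hz
      exact hz rfl
    obtain ⟨z, hz⟩ : ∃ z : ι → ℂ, MvPolynomial.eval z (∏ α ∈ S, p α) ≠ 0 := by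
      by_contra hcon
      push Not at hcon
      exact hprod (MvPolynomial.funext fun z => by rw [hcon z, map_zero])
    rw [map_prod] at hz
    intro h0
    have h1 := Dat.elim_ne us D (MvPolynomial.eval₂Hom (Int.castRingHom ℂ) z) P' (fun i hi => by
      obtain ⟨j, hj, h1⟩ := hP'' i hi
      rw [h1]
      exact hP j) (Θ G) (fun α hα => by
      rw [hΘ]
      have h2 : (fun i => (MvPolynomial.eval₂Hom (Int.castRingHom ℂ) z) (MvPolynomial.X i : MvPolynomial ι ℤ)) = z := by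
        funext i
        simp
      have h3 : (fun k : Fin n => α k) ∈ S := by
        rw [Fintype.mem_piFinset]
        intro k
        refine hroot _ _ (hP k) ?_
        have h4 := hα k (by rw [hlen]; exact k.2)
        rwa [hP'i] at h4
      have h5 := Finset.prod_ne_zero_iff.1 hz _ h3
      rw [hp] at h5
      have h6 : (fun i => (MvPolynomial.eval₂Hom (Int.castRingHom ℂ) z :
        D.R →+* ℂ) (MvPolynomial.X i : MvPolynomial ι ℤ)) = z := h2
      rw [h6]
      exact h5)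
    rw [h0, map_zero] at h1
    exact h1 rfl
  have hfin := hmeas _ hne' c1 _ c2
  refine (min_le_right _ _).trans ?_
  rw [div_le_iff₀ (by positivity)]
  have hB0 : 0 ≤ B' := by linarith
  calc c ≤ (B' * H ^ a') ^ κ * ‖evM x (D.elim us P' (Θ G))‖ := hfin
    _ ≤ (B' * H ^ a') ^ κ * (K' * H ^ k' * ε) := mul_le_mul_of_nonneg_left c3 (by positivity)
    _ = H ^ (a' * κ + k') * ε * (B' ^ κ * K') := by
      rw [mul_pow, ← pow_mul, pow_add]
      ring

end Pool.Agent.H895.SM
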